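import Pool.Agent.Helper99.Pic.Heis

/-!
# Module HEIS: Poincaré inequality on the Heisenberg nilmanifold
-/

set_option autoImplicit false

namespace Pool.Agent.Helper99.Pic

open Pool.Agent.Helper10.Pic
open MeasureTheory Topology Set
open scoped ComplexConjugate

noncomputable section

/-- a function on the Siegel domain in the coordinates of a horosphere -/
def lf (u : ℝ) (ψ : Pt → ℂ) (p : V2 × ℝ) : ℂ := ψ (pt u p)

theorem contDiff_lf {u : ℝ} (hu : 0 < u) {ψ : Pt → ℂ} (hψ : ContDiffOn ℝ 1 ψ SD) :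
    ContDiff ℝ 1 (lf u ψ) :=
  hψ.comp_contDiff ((contDiff_pt u).of_le (by norm_num)) (pt_mem hu)

theorem continuous_lf {u : ℝ} (hu : 0 < u) {ψ : Pt → ℂ} (hψ : ContinuousOn ψ SD) :
    Continuous (lf u ψ) :=
  hψ.comp_continuous (contDiff_pt u).continuous (pt_mem hu)

theorem fderiv_lf {u : ℝ} (hu : 0 < u) {ψ : Pt → ℂ} (hψ : ContDiffOn ℝ 1 ψ SD) (p v : V2 × ℝ) :
    fderiv ℝ (lf u ψ) p v = fderiv ℝ ψ (pt u p) (fderiv ℝ (pt u) p v) := by
  have h1 : HasFDerivAt ψ (fderiv ℝ ψ (pt u p)) (pt u p) :=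
    ((hψ.contDiffAt (isOpen_SD.mem_nhds (pt_mem hu p))).differentiableAt
      (by norm_num)).hasFDerivAt
  have h2 : HasFDerivAt (pt u) (fderiv ℝ (pt u) p) p :=
    ((contDiff_pt u).differentiable (by norm_num) p).hasFDerivAt
  have h3 : fderiv ℝ (lf u ψ) p = _ := (h1.comp p h2).fderiv
  rw [h3]
  rfl

theorem lf0 {u : ℝ} (hu : 0 < u) {ψ : Pt → ℂ} (hψ : ContDiffOn ℝ 1 ψ SD) (p : V2 × ℝ) :
    fderiv ℝ (lf u ψ) p (Pi.single 0 1, 0) = (Real.sqrt 3 : ℂ) * lf u (YY ψ) p +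
      (-(3 * Real.sqrt 3 / 2 * p.1 1 : ℝ) : ℂ) * lf u (ZZ ψ) p := by
  rw [fderiv_lf hu hψ, dir0, map_sub, map_smul, map_smul]
  unfold lf YY ZZ pd
  simp only [Complex.real_smul]
  ring

theorem lf1 {u : ℝ} (hu : 0 < u) {ψ : Pt → ℂ} (hψ : ContDiffOn ℝ 1 ψ SD) (p : V2 × ℝ) :
    fderiv ℝ (lf u ψ) p (Pi.single 1 1, 0) = (-(3 / 2) : ℂ) * lf u (XX ψ) p +
      (-(Real.sqrt 3 / 2) * lf u (YY ψ) p +
      ((3 * Real.sqrt 3 / 2 * p.1 0 : ℝ) : ℂ) * lf u (ZZ ψ) p) := by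
  rw [fderiv_lf hu hψ, dir1, map_add, map_sub, map_smul, map_smul, map_smul]
  unfold lf XX YY ZZ pd
  simp only [Complex.real_smul]
  push_cast
  ring

theorem lft {u : ℝ} (hu : 0 < u) {ψ : Pt → ℂ} (hψ : ContDiffOn ℝ 1 ψ SD) (p : V2 × ℝ) :
    fderiv ℝ (lf u ψ) p (0, 1) = (Real.sqrt 3 : ℂ) * lf u (ZZ ψ) p := by
  rw [fderiv_lf hu hψ, dirt, map_smul]
  unfold lf ZZ pd
  simp only [Complex.real_smul]

/-! ### Periodicity -/

theorem one_mem_Eis : (1 : ℂ) ∈ Eis := ⟨1, 0, by simp⟩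

theorem om_mem_Eis : om ∈ Eis := ⟨0, 1, by simp⟩

theorem th_eq : th = 1 + 2 * om := by
  apply Complex.ext
  · simp [th_re, om_re]
    norm_num
  · simp [th_im, om_im]
    ring

theorem th_mem_Eis : th ∈ Eis := ⟨1, 2, by rw [th_eq]; push_cast; ring⟩

theorem inN_t : InN th 0 := ⟨th_mem_Eis, ⟨0, Eis.zero_mem, by simp⟩, by simp [th_re]⟩

theorem inN_0 : InN (om - 1) th := by
  refine ⟨Eis.sub_mem om_mem_Eis one_mem_Eis, ⟨1, one_mem_Eis, by simp⟩, ?_⟩
  rw [normsq, th_re, th_im]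
  simp only [Complex.sub_re, om_re, Complex.one_re]
  linear_combination s3

theorem inN_1 : InN (om - 1) (th * om) := by
  refine ⟨Eis.sub_mem om_mem_Eis one_mem_Eis, ⟨om, om_mem_Eis, rfl⟩, ?_⟩
  rw [normsq]
  simp only [Complex.sub_re, om_re, Complex.one_re, Complex.mul_re, Complex.mul_im, th_re, th_im,
    om_im]
  linear_combination (1 / 4 + Real.sqrt 3 * Real.sqrt 3 / 4 + 3 / 4) * s3

theorem pt_t (u : ℝ) (y : V2) (t : ℝ) : pt u (y, t + 1) = act (T th 0) (pt u (y, t)) := by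
  rw [actT]
  unfold pt
  apply Prod.ext
  · apply Complex.ext
    · simp [th_re]
    · simp [th_im]
      ring
  · simp

theorem pt_0 (u : ℝ) (y : V2) (t : ℝ) : pt u (y + Pi.single 0 1, t) =
    act (T (om - 1) th) (pt u (y, t + (3 / 2 * y 1 - 1 / 2))) := by
  have e0 : (y + Pi.single 0 1 : V2) 0 = y 0 + 1 := by simp
  have e1 : (y + Pi.single 0 1 : V2) 1 = y 1 := by simp
  rw [actT]
  unfold pt
  simp only [e0, e1]
  apply Prod.ext
  · apply Complex.ext
    · simp only [Complex.add_re, Complex.add_im, Complex.sub_re, Complex.mul_re, Complex.mul_im,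
        Complex.ofReal_re, Complex.ofReal_im, Complex.I_re, Complex.I_im, Complex.conj_re,
        Complex.conj_im, Complex.one_re, th_re, th_im, om_re, om_im]
      linear_combination (y 0 - y 1 / 2) * s3
    · simp only [Complex.add_re, Complex.add_im, Complex.sub_im, Complex.mul_re, Complex.mul_im,
        Complex.ofReal_re, Complex.ofReal_im, Complex.I_re, Complex.I_im, Complex.conj_re,
        Complex.conj_im, Complex.one_im, th_re, th_im, om_re, om_im]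
      linear_combination (y 1 * Real.sqrt 3 / 2) * s3
  · simp only
    push_cast
    ring

theorem pt_1 (u : ℝ) (y : V2) (t : ℝ) : pt u (y + Pi.single 1 1, t) =
    act (T (om - 1) (th * om)) (pt u (y, t + (-(3 / 2) * y 0 - 1 / 2))) := by
  have e0 : (y + Pi.single 1 1 : V2) 0 = y 0 := by simp
  have e1 : (y + Pi.single 1 1 : V2) 1 = y 1 + 1 := by simp
  rw [actT]
  unfold pt
  simp only [e0, e1]
  apply Prod.ext
  · apply Complex.ext
    · simp only [Complex.add_re, Complex.add_im, Complex.sub_re, Complex.mul_re, Complex.mul_im,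
        Complex.ofReal_re, Complex.ofReal_im, Complex.I_re, Complex.I_im, Complex.conj_re,
        Complex.conj_im, Complex.one_re, th_re, th_im, om_re, om_im]
      linear_combination (-(y 0) / 2 + y 1 / 4 + y 1 * (Real.sqrt 3 * Real.sqrt 3) / 4 +
        3 * y 1 / 4) * s3
    · simp only [Complex.add_re, Complex.add_im, Complex.sub_im, Complex.mul_re, Complex.mul_im,
        Complex.ofReal_re, Complex.ofReal_im, Complex.I_re, Complex.I_im, Complex.conj_re,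
        Complex.conj_im, Complex.one_im, th_re, th_im, om_re, om_im]
      linear_combination (-(y 0 * Real.sqrt 3) / 2) * s3
  · simp only
    push_cast
    ring

/-! ### Modes -/

/-- the `n`-th mode of a function on the Siegel domain -/
def M (n : ℤ) (u : ℝ) (ψ : Pt → ℂ) (y : V2) : ℂ := md n (lf u ψ) y

theorem per_t {u : ℝ} (hu : 0 < u) {ψ : Pt → ℂ} (hi : Inv ψ) (y : V2) (t : ℝ) :
    lf u ψ (y, t + 1) = lf u ψ (y, t) := by
  unfold lf
  rw [pt_t]
  exact hi _ _ inN_t _ (pt_mem hu _)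

theorem M_shift0 {u : ℝ} (hu : 0 < u) {ψ : Pt → ℂ} (hi : Inv ψ) (n : ℤ) (y : V2) :
    M n u ψ (y + Pi.single 0 1) = ec n (-(3 / 2 * y 1 - 1 / 2)) * M n u ψ y := by
  unfold M
  apply md_shift n (per_t hu hi)
  intro t
  unfold lf
  rw [pt_0]
  exact hi _ _ inN_0 _ (pt_mem hu _)

theorem M_shift1 {u : ℝ} (hu : 0 < u) {ψ : Pt → ℂ} (hi : Inv ψ) (n : ℤ) (y : V2) :
    M n u ψ (y + Pi.single 1 1) = ec n (-(-(3 / 2) * y 0 - 1 / 2)) * M n u ψ y := by
  unfold M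
  apply md_shift n (per_t hu hi)
  intro t
  unfold lf
  rw [pt_1]
  exact hi _ _ inN_1 _ (pt_mem hu _)

theorem M_periodic {u : ℝ} (hu : 0 < u) {φ ψ : Pt → ℂ} (hφ : Inv φ) (hψ : Inv ψ) (n : ℤ)
    (i : Fin 2) (y : V2) : conj (M n u φ (y + Pi.single i 1)) * M n u ψ (y + Pi.single i 1) =
      conj (M n u φ y) * M n u ψ y := by
  have h1 : ∀ c : ℝ, conj (ec n c) * ec n c = 1 := by
    intro c
    rw [Complex.conj_mul', norm_ec]
    norm_num
  fin_cases i
  · change conj (M n u φ (y + Pi.single 0 1)) * M n u ψ (y + Pi.single 0 1) = _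
    rw [M_shift0 hu hφ, M_shift0 hu hψ, map_mul]
    linear_combination (conj (M n u φ y) * M n u ψ y) * h1 (-(3 / 2 * y 1 - 1 / 2))
  · change conj (M n u φ (y + Pi.single 1 1)) * M n u ψ (y + Pi.single 1 1) = _
    rw [M_shift1 hu hφ, M_shift1 hu hψ, map_mul]
    linear_combination (conj (M n u φ y) * M n u ψ y) * h1 (-(-(3 / 2) * y 0 - 1 / 2))

/-- the eigenvalue of `ZZ` on the `n`-th mode -/
def kap (n : ℤ) : ℂ := Complex.I * ((2 * Real.pi * n / Real.sqrt 3 : ℝ) : ℂ)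

theorem conj_kap (n : ℤ) : conj (kap n) = -kap n := by
  unfold kap
  rw [map_mul, Complex.conj_I, Complex.conj_ofReal]
  ring

theorem norm_kap (n : ℤ) : ‖kap n‖ = 2 * Real.pi * |(n : ℝ)| / Real.sqrt 3 := by
  unfold kap
  rw [norm_mul, Complex.norm_I, one_mul, Complex.norm_real, Real.norm_eq_abs, abs_div, abs_mul,
    abs_of_pos s3pos, abs_of_pos (by positivity : (0 : ℝ) < 2 * Real.pi)]

theorem M_zz {u : ℝ} (hu : 0 < u) {ψ : Pt → ℂ} (hψ : ContDiffOn ℝ 1 ψ SD) (hi : Inv ψ)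
    (n : ℤ) (y : V2) : M n u (ZZ ψ) y = kap n * M n u ψ y := by
  have hc : Continuous (lf u (ZZ ψ)) := continuous_lf hu (c0_zz hψ)
  have h1 : ∀ (y : V2) (t : ℝ), HasDerivAt (fun s => lf u ψ (y, s))
      ((fun p : V2 × ℝ => (fun _ : V2 => (Real.sqrt 3 : ℂ)) p.1 * lf u (ZZ ψ) p) (y, t)) t := by
    intro y t
    have h2 : HasFDerivAt (lf u ψ) (fderiv ℝ (lf u ψ) (y, t)) (y, t) :=
      ((contDiff_lf hu hψ).differentiable (by norm_num) (y, t)).hasFDerivAt
    have h3 : HasDerivAt (fun s : ℝ => (y, s)) ((0 : V2), (1 : ℝ)) t :=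
      (hasDerivAt_const t y).prodMk (hasDerivAt_id t)
    have h4 := h2.comp_hasDerivAt t h3
    rw [lft hu hψ] at h4
    exact h4
  have hc' : Continuous (fun p : V2 × ℝ => (fun _ : V2 => (Real.sqrt 3 : ℂ)) p.1 *
      lf u (ZZ ψ) p) := continuous_const.mul hc
  have h2 := md_deriv n h1 hc' (contDiff_lf hu hψ).continuous (per_t hu hi) y
  rw [md_mul n (fun _ : V2 => (Real.sqrt 3 : ℂ))] at h2
  have hs : (Real.sqrt 3 : ℂ) ≠ 0 := by
    exact_mod_cast s3pos.ne'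
  unfold M kap
  apply mul_left_cancel₀ hs
  rw [h2]
  push_cast
  field_simp

theorem contDiff_M {u : ℝ} (hu : 0 < u) {ψ : Pt → ℂ} (hψ : ContDiffOn ℝ 1 ψ SD) (n : ℤ) :
    ContDiff ℝ 1 (M n u ψ) := contDiff_md n (contDiff_lf hu hψ)

theorem continuous_M {u : ℝ} (hu : 0 < u) {ψ : Pt → ℂ} (hψ : ContinuousOn ψ SD) (n : ℤ) :
    Continuous (M n u ψ) := continuous_md n (continuous_lf hu hψ)

theorem fderiv_M0 {u : ℝ} (hu : 0 < u) {ψ : Pt → ℂ} (hψ : ContDiffOn ℝ 1 ψ SD) (hi : Inv ψ)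
    (n : ℤ) (y : V2) : fderiv ℝ (M n u ψ) y (Pi.single 0 1) =
      (Real.sqrt 3 : ℂ) * M n u (YY ψ) y +
      (-(3 * Real.sqrt 3 / 2 * y 1 : ℝ) : ℂ) * (kap n * M n u ψ y) := by
  have h1 : fderiv ℝ (M n u ψ) y (Pi.single 0 1) = _ := fderiv_md n (contDiff_lf hu hψ) y _
  have hcY : Continuous (lf u (YY ψ)) := continuous_lf hu (c0_yy hψ)
  have hcZ : Continuous (lf u (ZZ ψ)) := continuous_lf hu (c0_zz hψ)
  have h2 : (fun p => fderiv ℝ (lf u ψ) p (Pi.single 0 1, 0)) = fun p : V2 × ℝ =>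
      (fun _ : V2 => (Real.sqrt 3 : ℂ)) p.1 * lf u (YY ψ) p +
      (fun y : V2 => (-(3 * Real.sqrt 3 / 2 * y 1 : ℝ) : ℂ)) p.1 * lf u (ZZ ψ) p := by
    funext p
    exact lf0 hu hψ p
  rw [h1, h2, md_add n, md_mul n (fun _ : V2 => (Real.sqrt 3 : ℂ)),
    md_mul n (fun y : V2 => (-(3 * Real.sqrt 3 / 2 * y 1 : ℝ) : ℂ)), ← M_zz hu hψ hi]
  · rfl
  · exact continuous_const.mul hcY
  · exact (by fun_prop : Continuous fun p : V2 × ℝ =>
      (-(3 * Real.sqrt 3 / 2 * p.1 1 : ℝ) : ℂ)).mul hcZ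

theorem fderiv_M1 {u : ℝ} (hu : 0 < u) {ψ : Pt → ℂ} (hψ : ContDiffOn ℝ 1 ψ SD) (hi : Inv ψ)
    (n : ℤ) (y : V2) : fderiv ℝ (M n u ψ) y (Pi.single 1 1) =
      (-(3 / 2) : ℂ) * M n u (XX ψ) y + (-(Real.sqrt 3 / 2) * M n u (YY ψ) y +
      ((3 * Real.sqrt 3 / 2 * y 0 : ℝ) : ℂ) * (kap n * M n u ψ y)) := by
  have h1 : fderiv ℝ (M n u ψ) y (Pi.single 1 1) = _ := fderiv_md n (contDiff_lf hu hψ) y _
  have hcX : Continuous (lf u (XX ψ)) := continuous_lf hu (c0_xx hψ)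
  have hcY : Continuous (lf u (YY ψ)) := continuous_lf hu (c0_yy hψ)
  have hcZ : Continuous (lf u (ZZ ψ)) := continuous_lf hu (c0_zz hψ)
  have h2 : (fun p => fderiv ℝ (lf u ψ) p (Pi.single 1 1, 0)) = fun p : V2 × ℝ =>
      (fun _ : V2 => (-(3 / 2) : ℂ)) p.1 * lf u (XX ψ) p +
      ((fun _ : V2 => (-(Real.sqrt 3 / 2) : ℂ)) p.1 * lf u (YY ψ) p +
      (fun y : V2 => ((3 * Real.sqrt 3 / 2 * y 0 : ℝ) : ℂ)) p.1 * lf u (ZZ ψ) p) := by
    funext p
    exact lf1 hu hψ p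
  have c1 : Continuous fun p : V2 × ℝ => (fun _ : V2 => (-(3 / 2) : ℂ)) p.1 * lf u (XX ψ) p :=
    continuous_const.mul hcX
  have c2 : Continuous fun p : V2 × ℝ =>
      (fun _ : V2 => (-(Real.sqrt 3 / 2) : ℂ)) p.1 * lf u (YY ψ) p := continuous_const.mul hcY
  have c3 : Continuous fun p : V2 × ℝ =>
      (fun y : V2 => ((3 * Real.sqrt 3 / 2 * y 0 : ℝ) : ℂ)) p.1 * lf u (ZZ ψ) p :=
    (by fun_prop : Continuous fun p : V2 × ℝ =>
      ((3 * Real.sqrt 3 / 2 * p.1 0 : ℝ) : ℂ)).mul hcZ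
  have c23 : Continuous fun p : V2 × ℝ =>
      (fun _ : V2 => (-(Real.sqrt 3 / 2) : ℂ)) p.1 * lf u (YY ψ) p +
      (fun y : V2 => ((3 * Real.sqrt 3 / 2 * y 0 : ℝ) : ℂ)) p.1 * lf u (ZZ ψ) p := c2.add c3
  rw [h1, h2, md_add n c1 c23, md_add n c2 c3, md_mul n (fun _ : V2 => (-(3 / 2) : ℂ)),
    md_mul n (fun _ : V2 => (-(Real.sqrt 3 / 2) : ℂ)),
    md_mul n (fun y : V2 => ((3 * Real.sqrt 3 / 2 * y 0 : ℝ) : ℂ)), ← M_zz hu hψ hi]
  rfl

/-! ### Integration by parts -/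

theorem fderiv_conj {F : V2 → ℂ} (hF : ContDiff ℝ 1 F) (y v : V2) :
    fderiv ℝ (fun y => conj (F y)) y v = conj (fderiv ℝ F y v) := by
  have h1 : HasFDerivAt F (fderiv ℝ F y) y := (hF.differentiable (by norm_num) y).hasFDerivAt
  have h2 : fderiv ℝ (fun y => conj (F y)) y = _ :=
    ((Complex.conjCLE : ℂ →L[ℝ] ℂ).hasFDerivAt.comp y h1).fderiv
  rw [h2]
  rfl

theorem int_pair {F G : V2 → ℂ} (hF : ContDiff ℝ 1 F) (hG : ContDiff ℝ 1 G) (i : Fin 2)
    (hp : ∀ y, conj (F (y + Pi.single i 1)) * G (y + Pi.single i 1) = conj (F y) * G y) :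
    ∫ y in Q2, (conj (fderiv ℝ F y (Pi.single i 1)) * G y +
      conj (F y) * fderiv ℝ G y (Pi.single i 1)) = 0 := by
  have hFc : ContDiff ℝ 1 (fun y => conj (F y)) :=
    (Complex.conjCLE : ℂ →L[ℝ] ℂ).contDiff.comp hF
  have h1 := int_deriv (H := fun y => conj (F y) * G y) (hFc.mul hG) i hp
  have h2 : (fun y => fderiv ℝ (fun y => conj (F y) * G y) y (Pi.single i 1)) = fun y =>
      (conj (fderiv ℝ F y (Pi.single i 1)) * G y +
      conj (F y) * fderiv ℝ G y (Pi.single i 1)) := by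
    funext y
    have d1 : DifferentiableAt ℝ (fun y => conj (F y)) y := hFc.differentiable (by norm_num) y
    have d2 : DifferentiableAt ℝ G y := hG.differentiable (by norm_num) y
    rw [fderiv_fun_mul d1 d2]
    simp only [add_apply, smul_apply, smul_eq_mul]
    rw [fderiv_conj hF]
    ring
  simp only [h2] at h1
  exact h1

theorem parts_y {u : ℝ} (hu : 0 < u) {φ ψ : Pt → ℂ} (hφ : ContDiffOn ℝ 1 φ SD) (hφi : Inv φ)
    (hψ : ContDiffOn ℝ 1 ψ SD) (hψi : Inv ψ) (n : ℤ) :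
    ∫ y in Q2, (conj (M n u (YY φ) y) * M n u ψ y + conj (M n u φ y) * M n u (YY ψ) y) = 0 := by
  have h1 := int_pair (contDiff_M hu hφ n) (contDiff_M hu hψ n) 0
    (fun y => M_periodic hu hφi hψi n 0 y)
  have h2 : (fun y => (conj (fderiv ℝ (M n u φ) y (Pi.single 0 1)) * M n u ψ y +
      conj (M n u φ y) * fderiv ℝ (M n u ψ) y (Pi.single 0 1))) = fun y =>
      (Real.sqrt 3 : ℂ) * (conj (M n u (YY φ) y) * M n u ψ y +
        conj (M n u φ y) * M n u (YY ψ) y) := by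
    funext y
    rw [fderiv_M0 hu hφ hφi, fderiv_M0 hu hψ hψi, map_add, map_mul, map_mul, map_mul, map_neg,
      conj_kap, Complex.conj_ofReal, Complex.conj_ofReal]
    ring
  simp only [h2] at h1
  rw [integral_const_mul] at h1
  have hs : (Real.sqrt 3 : ℂ) ≠ 0 := by
    exact_mod_cast s3pos.ne'
  exact (mul_eq_zero.mp h1).resolve_left hs

theorem parts_x {u : ℝ} (hu : 0 < u) {φ ψ : Pt → ℂ} (hφ : ContDiffOn ℝ 1 φ SD) (hφi : Inv φ)
    (hψ : ContDiffOn ℝ 1 ψ SD) (hψi : Inv ψ) (n : ℤ) :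
    ∫ y in Q2, (conj (M n u (XX φ) y) * M n u ψ y + conj (M n u φ y) * M n u (XX ψ) y) = 0 := by
  have h0 := parts_y hu hφ hφi hψ hψi n
  have h1 := int_pair (contDiff_M hu hφ n) (contDiff_M hu hψ n) 1
    (fun y => M_periodic hu hφi hψi n 1 y)
  have h2 : (fun y => (conj (fderiv ℝ (M n u φ) y (Pi.single 1 1)) * M n u ψ y +
      conj (M n u φ y) * fderiv ℝ (M n u ψ) y (Pi.single 1 1))) = fun y =>
      (-(3 / 2) : ℂ) * (conj (M n u (XX φ) y) * M n u ψ y +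
        conj (M n u φ y) * M n u (XX ψ) y) +
      (-(Real.sqrt 3 / 2) : ℂ) * (conj (M n u (YY φ) y) * M n u ψ y +
        conj (M n u φ y) * M n u (YY ψ) y) := by
    funext y
    have c1 : conj (-(3 / 2) : ℂ) = -(3 / 2) := by
      have : (-(3 / 2) : ℂ) = ((-(3 / 2) : ℝ) : ℂ) := by push_cast; rfl
      rw [this, Complex.conj_ofReal]
    have c2 : conj (-(Real.sqrt 3 / 2) : ℂ) = -(Real.sqrt 3 / 2) := by
      have : (-(Real.sqrt 3 / 2) : ℂ) = ((-(Real.sqrt 3 / 2) : ℝ) : ℂ) := by push_cast; rfl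
      rw [this, Complex.conj_ofReal]
    rw [fderiv_M1 hu hφ hφi, fderiv_M1 hu hψ hψi, map_add, map_mul, map_add, map_mul, map_mul,
      map_mul, c1, c2, conj_kap, Complex.conj_ofReal]
    ring
  simp only [h2] at h1
  have cφ := continuous_M hu hφ.continuousOn n
  have cψ := continuous_M hu hψ.continuousOn n
  have cX1 := continuous_M hu (c0_xx hφ) n
  have cX2 := continuous_M hu (c0_xx hψ) n
  have cY1 := continuous_M hu (c0_yy hφ) n
  have cY2 := continuous_M hu (c0_yy hψ) n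
  have i1 : IntegrableOn (fun y => (-(3 / 2) : ℂ) * (conj (M n u (XX φ) y) * M n u ψ y +
        conj (M n u φ y) * M n u (XX ψ) y)) Q2 := by
    apply Continuous.integrableOn_Icc
    fun_prop
  have i2 : IntegrableOn (fun y => (-(Real.sqrt 3 / 2) : ℂ) * (conj (M n u (YY φ) y) * M n u ψ y +
        conj (M n u φ y) * M n u (YY ψ) y)) Q2 := by
    apply Continuous.integrableOn_Icc
    fun_prop
  rw [integral_add i1 i2, integral_const_mul, integral_const_mul, h0, mul_zero, add_zero] at h1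
  exact (mul_eq_zero.mp h1).resolve_left (by norm_num)

/-- Landau levels -/
theorem landau {u : ℝ} (hu : 0 < u) {φ : Pt → ℂ} (hφ : ContDiffOn ℝ 2 φ SD) (hi : Inv φ)
    (n : ℤ) : 4 * Real.pi * |(n : ℝ)| / Real.sqrt 3 * ∫ y in Q2, ‖M n u φ y‖ ^ 2 ≤
      (∫ y in Q2, ‖M n u (XX φ) y‖ ^ 2) + ∫ y in Q2, ‖M n u (YY φ) y‖ ^ 2 := by
  have hφ1 : ContDiffOn ℝ 1 φ SD := hφ.of_le (by norm_num)
  have px := parts_x hu hφ1 hi (c1_yy hφ) (hi.yy hφ1) n
  have py := parts_y hu hφ1 hi (c1_xx hφ) (hi.xx hφ1) n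
  have cφ := continuous_M hu hφ1.continuousOn n
  have cX := continuous_M hu (c0_xx hφ1) n
  have cY := continuous_M hu (c0_yy hφ1) n
  have cXY := continuous_M hu (c0_xx (c1_yy hφ)) n
  have cYX := continuous_M hu (c0_yy (c1_xx hφ)) n
  have i1 : IntegrableOn (fun y => conj (M n u (XX φ) y) * M n u (YY φ) y +
      conj (M n u φ y) * M n u (XX (YY φ)) y) Q2 := by
    apply Continuous.integrableOn_Icc
    fun_prop
  have i2 : IntegrableOn (fun y => conj (M n u (YY φ) y) * M n u (XX φ) y +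
      conj (M n u φ y) * M n u (YY (XX φ)) y) Q2 := by
    apply Continuous.integrableOn_Icc
    fun_prop
  have hcomm : ∀ y, M n u (XX (YY φ)) y - M n u (YY (XX φ)) y = -2 * (kap n * M n u φ y) := by
    intro y
    have hc1 : Continuous (lf u (XX (YY φ))) := continuous_lf hu (c0_xx (c1_yy hφ))
    have hc2 : Continuous (lf u (YY (XX φ))) := continuous_lf hu (c0_yy (c1_xx hφ))
    rw [← M_zz hu hφ1 hi]
    unfold M
    rw [← md_sub n hc1 hc2]
    have : (fun p => lf u (XX (YY φ)) p - lf u (YY (XX φ)) p) = fun p : V2 × ℝ =>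
        (fun _ : V2 => (-2 : ℂ)) p.1 * lf u (ZZ φ) p := by
      funext p
      exact commutator hφ (pt_mem hu p)
    rw [this, md_mul n (fun _ : V2 => (-2 : ℂ))]
  have h1 : ∫ y in Q2, (conj (M n u (XX φ) y) * M n u (YY φ) y -
      conj (M n u (YY φ) y) * M n u (XX φ) y) =
      (2 * kap n) * ((∫ y in Q2, ‖M n u φ y‖ ^ 2 : ℝ) : ℂ) := by
    have h2 := integral_sub i1 i2
    rw [px, py, sub_zero] at h2
    have h3 : (fun y => (conj (M n u (XX φ) y) * M n u (YY φ) y +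
      conj (M n u φ y) * M n u (XX (YY φ)) y) - (conj (M n u (YY φ) y) * M n u (XX φ) y +
      conj (M n u φ y) * M n u (YY (XX φ)) y)) = fun y =>
      (conj (M n u (XX φ) y) * M n u (YY φ) y - conj (M n u (YY φ) y) * M n u (XX φ) y) -
      (2 * kap n) * ((‖M n u φ y‖ ^ 2 : ℝ) : ℂ) := by
      funext y
      have h4 : ((‖M n u φ y‖ ^ 2 : ℝ) : ℂ) = conj (M n u φ y) * M n u φ y := by
        rw [Complex.conj_mul']
        push_cast
        rfl
      rw [h4]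
      linear_combination (conj (M n u φ y)) * hcomm y
    rw [h3] at h2
    have i3 : IntegrableOn (fun y => conj (M n u (XX φ) y) * M n u (YY φ) y -
        conj (M n u (YY φ) y) * M n u (XX φ) y) Q2 := by
      apply Continuous.integrableOn_Icc
      fun_prop
    have i4 : IntegrableOn (fun y => (2 * kap n) * ((‖M n u φ y‖ ^ 2 : ℝ) : ℂ)) Q2 := by
      apply Continuous.integrableOn_Icc
      fun_prop
    rw [integral_sub i3 i4, integral_const_mul, integral_complex_ofReal, sub_eq_zero] at h2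
    exact h2
  have h5 : ‖∫ y in Q2, (conj (M n u (XX φ) y) * M n u (YY φ) y -
      conj (M n u (YY φ) y) * M n u (XX φ) y)‖ ≤
      ∫ y in Q2, (‖M n u (XX φ) y‖ ^ 2 + ‖M n u (YY φ) y‖ ^ 2) := by
    apply norm_integral_le_of_norm_le
    · apply Continuous.integrableOn_Icc
      fun_prop
    · apply Filter.Eventually.of_forall
      intro y
      refine (norm_sub_le _ _).trans ?_
      rw [norm_mul, norm_mul, Complex.norm_conj, Complex.norm_conj]
      nlinarith [sq_nonneg (‖M n u (XX φ) y‖ - ‖M n u (YY φ) y‖)]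
  have i5 : IntegrableOn (fun y => ‖M n u (XX φ) y‖ ^ 2) Q2 := (cX.norm.pow 2).integrableOn_Icc
  have i6 : IntegrableOn (fun y => ‖M n u (YY φ) y‖ ^ 2) Q2 := (cY.norm.pow 2).integrableOn_Icc
  rw [h1, integral_add i5 i6, norm_mul, norm_mul, norm_kap, Complex.norm_real,
    Real.norm_eq_abs, abs_of_nonneg (integral_nonneg fun y => by positivity)] at h5
  have h6 : ‖(2 : ℂ)‖ = 2 := by norm_num
  rw [h6] at h5
  refine le_trans (le_of_eq ?_) h5
  ring

/-- Fubini for the mean value -/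
theorem integral3 {G : V2 × ℝ → ℂ} (hG : Continuous G) :
    ∫ x in Icc (0 : Fin 3 → ℝ) 1, G (sp x) = ∫ y in Q2, md 0 G y := by
  let e := MeasurableEquiv.piFinSuccAbove (fun _ : Fin 3 => ℝ) (Fin.last 2)
  have he : MeasurePreserving e volume volume :=
    volume_preserving_piFinSuccAbove (fun _ : Fin 3 => ℝ) (Fin.last 2)
  have h2 : ∀ x, e x = (x 2, ![x 0, x 1]) := by
    intro x
    apply Prod.ext
    · rfl
    · funext i
      fin_cases i <;> rfl
  have hset : e ⁻¹' (Icc (0 : ℝ) 1 ×ˢ Q2) = Icc (0 : Fin 3 → ℝ) 1 := by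
    ext x
    rw [mem_preimage, h2]
    constructor
    · rintro ⟨⟨a1, a2⟩, a3, a4⟩
      constructor
      · intro i
        fin_cases i
        · exact a3 0
        · exact a3 1
        · exact a1
      · intro i
        fin_cases i
        · exact a4 0
        · exact a4 1
        · exact a2
    · rintro ⟨a1, a2⟩
      refine ⟨⟨a1 2, a2 2⟩, ?_, ?_⟩
      · intro i
        fin_cases i
        · exact a1 0
        · exact a1 1
      · intro i
        fin_cases i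
        · exact a2 0
        · exact a2 1
  have h3 := he.setIntegral_preimage_emb e.measurableEmbedding
    (fun q : ℝ × V2 => G (q.2, q.1)) (Icc (0 : ℝ) 1 ×ˢ Q2)
  rw [hset] at h3
  have h4 : ∫ x in Icc (0 : Fin 3 → ℝ) 1, G (sp x) =
      ∫ x in Icc (0 : Fin 3 → ℝ) 1, (fun q : ℝ × V2 => G (q.2, q.1)) (e x) := by
    congr 1
    funext x
    simp only [h2]
    rfl
  have hint : IntegrableOn (fun q : ℝ × V2 => G (q.2, q.1)) (Icc (0 : ℝ) 1 ×ˢ Q2)
      ((volume : Measure ℝ).prod (volume : Measure V2)) := by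
    apply ContinuousOn.integrableOn_compact (isCompact_Icc.prod isCompact_Icc)
    exact (hG.comp continuous_swap).continuousOn
  rw [h4, h3, Measure.volume_eq_prod, ← Measure.prod_restrict, integral_prod_symm]
  · congr 1
    funext y
    unfold md
    rw [intervalIntegral.integral_of_le zero_le_one, ← integral_Icc_eq_integral_Ioc]
    congr 1
    funext t
    rw [ec_zero_left, one_mul]
  · rw [Measure.prod_restrict]
    exact hint

/-- the abelian mode -/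
theorem abel_mode {u : ℝ} (hu : 0 < u) {φ : Pt → ℂ} (hφ : ContDiffOn ℝ 1 φ SD) (hi : Inv φ)
    (hm : ∫ x in Icc (0 : Fin 3 → ℝ) 1, φ (cellpt x u) = 0) :
    16 * Real.pi ^ 2 / 9 * ∫ y in Q2, ‖M 0 u φ y‖ ^ 2 ≤
      (∫ y in Q2, ‖M 0 u (XX φ) y‖ ^ 2) + ∫ y in Q2, ‖M 0 u (YY φ) y‖ ^ 2 := by
  have hk : kap 0 = 0 := by
    unfold kap
    simp
  have hs : (Real.sqrt 3 : ℂ) ≠ 0 := by
    exact_mod_cast s3pos.ne'
  have hs2 : (Real.sqrt 3 : ℂ) * (Real.sqrt 3 : ℂ) = 3 := by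
    exact_mod_cast s3
  apply abel (contDiff_M hu hφ 0)
  · intro i y
    fin_cases i
    · change M 0 u φ (y + Pi.single 0 1) = _
      rw [M_shift0 hu hi, ec_zero_left, one_mul]
    · change M 0 u φ (y + Pi.single 1 1) = _
      rw [M_shift1 hu hi, ec_zero_left, one_mul]
  · have h1 := integral3 (contDiff_lf hu hφ).continuous
    unfold M
    rw [← h1, ← hm]
    congr 1
    funext x
    unfold lf
    rw [cellpt_eq]
  · intro y
    rw [fderiv_M0 hu hφ hi, hk]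
    push_cast
    field_simp
    ring
  · intro y
    rw [fderiv_M0 hu hφ hi, fderiv_M1 hu hφ hi, hk]
    push_cast
    ring

theorem lint_eq {F : V2 → ℂ} (hF : Continuous F) :
    ∫⁻ y in Q2, ENNReal.ofReal (‖F y‖ ^ 2) = ENNReal.ofReal (∫ y in Q2, ‖F y‖ ^ 2) := by
  rw [ofReal_integral_eq_lintegral_ofReal]
  · exact (hF.norm.pow 2).integrableOn_Icc
  · exact Filter.Eventually.of_forall fun t => by positivity

theorem cell_eq {u : ℝ} (hu : 0 < u) {ψ : Pt → ℂ} (hψ : ContinuousOn ψ SD) :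
    ∫⁻ x in Icc (0 : Fin 3 → ℝ) 1, ENNReal.ofReal (‖ψ (cellpt x u)‖ ^ 2) =
      ∑' n : ℤ, ENNReal.ofReal (∫ y in Q2, ‖M n u ψ y‖ ^ 2) := by
  have h1 := parseval3 (continuous_lf hu hψ)
  have h2 : ∫⁻ x in Icc (0 : Fin 3 → ℝ) 1, ENNReal.ofReal (‖ψ (cellpt x u)‖ ^ 2) =
      ∫⁻ x in Icc (0 : Fin 3 → ℝ) 1, ENNReal.ofReal (‖lf u ψ (sp x)‖ ^ 2) := by
    apply lintegral_congr
    intro x
    unfold lf
    rw [cellpt_eq]
  rw [h2, h1]
  congr 1
  funext n
  exact lint_eq (continuous_M hu hψ n)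

/-- the inequality in the `n`-th mode -/
theorem mode_ineq {u : ℝ} (hu : 0 < u) {φ : Pt → ℂ} (hφ : ContDiffOn ℝ 2 φ SD) (hi : Inv φ)
    (hm : ∫ x in Icc (0 : Fin 3 → ℝ) 1, φ (cellpt x u) = 0) (n : ℤ) :
    muP u * ∫ y in Q2, ‖M n u φ y‖ ^ 2 ≤ u ^ 2 * (∫ y in Q2, ‖M n u (ZZ φ) y‖ ^ 2) +
      (u * (∫ y in Q2, ‖M n u (XX φ) y‖ ^ 2) + u * ∫ y in Q2, ‖M n u (YY φ) y‖ ^ 2) := by
  have hφ1 : ContDiffOn ℝ 1 φ SD := hφ.of_le (by norm_num)
  have hI : 0 ≤ ∫ y in Q2, ‖M n u φ y‖ ^ 2 := integral_nonneg fun y => by positivity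
  have hZ0 : 0 ≤ ∫ y in Q2, ‖M n u (ZZ φ) y‖ ^ 2 := integral_nonneg fun y => by positivity
  by_cases hn : n = 0
  · subst hn
    have h1 := abel_mode hu hφ1 hi hm
    have h2 : muP u ≤ 16 * Real.pi ^ 2 / 9 * u := min_le_left _ _
    have h3 := mul_le_mul_of_nonneg_right h2 hI
    have h4 := mul_le_mul_of_nonneg_left h1 hu.le
    have h5 : 0 ≤ u ^ 2 * ∫ y in Q2, ‖M 0 u (ZZ φ) y‖ ^ 2 := by positivity
    linarith
  · have h1 := landau hu hφ hi n
    have h2 : muP u ≤ 4 * Real.pi / Real.sqrt 3 * u + 4 * Real.pi ^ 2 / 3 * u ^ 2 :=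
      min_le_right _ _
    have h3 := mul_le_mul_of_nonneg_right h2 hI
    have h4 := mul_le_mul_of_nonneg_left h1 hu.le
    have hZ : ∫ y in Q2, ‖M n u (ZZ φ) y‖ ^ 2 =
        (4 * Real.pi ^ 2 * (n : ℝ) ^ 2 / 3) * ∫ y in Q2, ‖M n u φ y‖ ^ 2 := by
      rw [← integral_const_mul]
      congr 1
      funext y
      rw [M_zz hu hφ1 hi, norm_mul, norm_kap, mul_pow, div_pow, mul_pow, mul_pow, sq_abs,
        Real.sq_sqrt (by norm_num : (0 : ℝ) ≤ 3)]
      ring
    have hn1 : (1 : ℝ) ≤ |(n : ℝ)| := by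
      have : (1 : ℤ) ≤ |n| := Int.one_le_abs hn
      exact_mod_cast this
    have hn2 : (1 : ℝ) ≤ (n : ℝ) ^ 2 := by
      rw [← sq_abs]
      nlinarith
    have hpi := Real.pi_pos
    have hs := s3pos
    have h5 : 4 * Real.pi / Real.sqrt 3 ≤ 4 * Real.pi * |(n : ℝ)| / Real.sqrt 3 := by
      apply div_le_div_of_nonneg_right _ hs.le
      nlinarith
    have h6 : 4 * Real.pi / Real.sqrt 3 * (∫ y in Q2, ‖M n u φ y‖ ^ 2) ≤
        4 * Real.pi * |(n : ℝ)| / Real.sqrt 3 * ∫ y in Q2, ‖M n u φ y‖ ^ 2 :=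
      mul_le_mul_of_nonneg_right h5 hI
    have h7 := mul_le_mul_of_nonneg_left h6 hu.le
    have h8 : 4 * Real.pi ^ 2 / 3 ≤ 4 * Real.pi ^ 2 * (n : ℝ) ^ 2 / 3 := by
      apply div_le_div_of_nonneg_right _ (by norm_num)
      have : 0 < 4 * Real.pi ^ 2 := by positivity
      nlinarith
    have h9 := mul_le_mul_of_nonneg_right h8 hI
    have h10 := mul_le_mul_of_nonneg_left h9 (by positivity : 0 ≤ u ^ 2)
    rw [hZ]
    linarith

/-- Poincaré inequality on the Heisenberg nilmanifold -/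
theorem poincare {φ : Pt → ℂ} (hφ : ContDiffOn ℝ 2 φ SD)
    (hper : ∀ a b, InN a b → ∀ p ∈ SD, φ (act (T a b) p) = φ p) {u : ℝ} (hu : 0 < u)
    (hmean : ∫ x in Set.Icc (0 : Fin 3 → ℝ) 1, φ (cellpt x u) = 0) :
    ENNReal.ofReal (muP u) * cellInt (fun p => ENNReal.ofReal (‖φ p‖ ^ 2)) u
      ≤ cellInt (fun p => ENNReal.ofReal (gh φ p)) u := by
  have hφ1 : ContDiffOn ℝ 1 φ SD := hφ.of_le (by norm_num)
  have hmu : 0 ≤ muP u := by
    unfold muP
    have := Real.pi_pos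
    positivity
  unfold cellInt
  have hX := cell_eq hu (c0_xx hφ1)
  have hY := cell_eq hu (c0_yy hφ1)
  have hZ := cell_eq hu (c0_zz hφ1)
  have hF := cell_eq hu hφ1.continuousOn
  have hmeas : ∀ {ψ : Pt → ℂ}, ContinuousOn ψ SD →
      Measurable (fun x : Fin 3 → ℝ => ENNReal.ofReal (‖ψ (cellpt x u)‖ ^ 2)) := by
    intro ψ hψ
    have h1 : (fun x : Fin 3 → ℝ => ENNReal.ofReal (‖ψ (cellpt x u)‖ ^ 2)) =
        fun x => ENNReal.ofReal (‖lf u ψ (sp x)‖ ^ 2) := by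
      funext x
      unfold lf
      rw [cellpt_eq]
    rw [h1]
    have hsp : Continuous sp := by
      unfold sp
      apply Continuous.prodMk
      · apply continuous_pi
        intro i
        fin_cases i
        · exact continuous_apply 0
        · exact continuous_apply 1
      · exact continuous_apply 2
    exact (((continuous_lf hu hψ).comp hsp).norm.pow 2).measurable.ennreal_ofReal
  have hgh : ∫⁻ x in Icc (0 : Fin 3 → ℝ) 1, ENNReal.ofReal (gh φ (cellpt x u)) =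
      ENNReal.ofReal (u ^ 2) * (∫⁻ x in Icc (0 : Fin 3 → ℝ) 1,
        ENNReal.ofReal (‖ZZ φ (cellpt x u)‖ ^ 2)) +
      (ENNReal.ofReal u * (∫⁻ x in Icc (0 : Fin 3 → ℝ) 1,
        ENNReal.ofReal (‖XX φ (cellpt x u)‖ ^ 2)) +
      ENNReal.ofReal u * (∫⁻ x in Icc (0 : Fin 3 → ℝ) 1,
        ENNReal.ofReal (‖YY φ (cellpt x u)‖ ^ 2))) := by
    have mX := hmeas (c0_xx hφ1)
    have mY := hmeas (c0_yy hφ1)
    have mZ := hmeas (c0_zz hφ1)
    rw [← lintegral_const_mul _ mX, ← lintegral_const_mul _ mY, ← lintegral_const_mul _ mZ,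
      ← lintegral_add_left (mX.const_mul _), ← lintegral_add_left (mZ.const_mul _)]
    apply lintegral_congr
    intro x
    rw [← ENNReal.ofReal_mul hu.le, ← ENNReal.ofReal_mul hu.le,
      ← ENNReal.ofReal_mul (by positivity), ← ENNReal.ofReal_add (by positivity) (by positivity),
      ← ENNReal.ofReal_add (by positivity) (by positivity)]
    congr 1
    unfold gh
    rw [cellpt_eq, hgt_pt]
    unfold ZZ
    ring
  rw [hF, hgh, hX, hY, hZ, ← ENNReal.tsum_mul_left, ← ENNReal.tsum_mul_left,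
    ← ENNReal.tsum_mul_left, ← ENNReal.tsum_mul_left, ← ENNReal.tsum_add, ← ENNReal.tsum_add]
  apply ENNReal.tsum_le_tsum
  intro n
  have h1 := mode_ineq hu hφ hper hmean n
  have n1 : 0 ≤ ∫ y in Q2, ‖M n u (ZZ φ) y‖ ^ 2 := integral_nonneg fun y => by positivity
  have n2 : 0 ≤ ∫ y in Q2, ‖M n u (XX φ) y‖ ^ 2 := integral_nonneg fun y => by positivity
  have n3 : 0 ≤ ∫ y in Q2, ‖M n u (YY φ) y‖ ^ 2 := integral_nonneg fun y => by positivity
  rw [← ENNReal.ofReal_mul hmu, ← ENNReal.ofReal_mul hu.le, ← ENNReal.ofReal_mul hu.le,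
    ← ENNReal.ofReal_mul (by positivity), ← ENNReal.ofReal_add (by positivity) (by positivity),
    ← ENNReal.ofReal_add (by positivity) (by positivity)]
  exact ENNReal.ofReal_le_ofReal h1

end

end Pool.Agent.Helper99.Pic
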