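import Mathlib

/-!
# Fourier modes in one variable of functions on `ℝ² × ℝ`
-/

set_option autoImplicit false

namespace Pool.Agent.Helper99.Pic

open MeasureTheory Topology Set

noncomputable section

/-- the plane -/
abbrev V2 := Fin 2 → ℝ

/-- the unit square -/
abbrev Q2 : Set V2 := Icc (0 : V2) 1

/-- the character `exp (-2 π i n t)` -/
def ec (n : ℤ) (t : ℝ) : ℂ := Complex.exp (-(2 * Real.pi * Complex.I) * n * t)

theorem continuous_ec (n : ℤ) : Continuous (ec n) := by
  unfold ec
  fun_prop

theorem norm_ec (n : ℤ) (t : ℝ) : ‖ec n t‖ = 1 := by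
  unfold ec
  rw [Complex.norm_exp]
  have : (-(2 * Real.pi * Complex.I) * n * t : ℂ).re = 0 := by
    simp
  rw [this, Real.exp_zero]

theorem ec_add (n : ℤ) (s t : ℝ) : ec n (s + t) = ec n s * ec n t := by
  unfold ec
  rw [← Complex.exp_add]
  congr 1
  push_cast
  ring

theorem ec_one (n : ℤ) : ec n 1 = 1 := by
  unfold ec
  rw [Complex.exp_eq_one_iff]
  exact ⟨-n, by push_cast; ring⟩

theorem ec_zero (n : ℤ) : ec n 0 = 1 := by
  unfold ec
  simp

theorem ec_zero_left (t : ℝ) : ec 0 t = 1 := by
  unfold ec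
  simp

theorem ec_periodic (n : ℤ) (t : ℝ) : ec n (t + 1) = ec n t := by
  rw [ec_add, ec_one, mul_one]

theorem hasDerivAt_ec (n : ℤ) (t : ℝ) :
    HasDerivAt (ec n) (-(2 * Real.pi * Complex.I) * n * ec n t) t := by
  unfold ec
  have h1 : HasDerivAt (fun t : ℝ => (-(2 * Real.pi * Complex.I) * n * t : ℂ))
      (-(2 * Real.pi * Complex.I) * n) t := by
    have h2 : HasDerivAt (fun t : ℝ => (t : ℂ)) 1 t := Complex.ofRealCLM.hasDerivAt
    have := h2.const_mul (-(2 * Real.pi * Complex.I) * n : ℂ)
    rwa [mul_one] at this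
  exact h1.cexp.congr_deriv (mul_comm _ _)

/-- Parseval on the unit interval -/
theorem parseval1 {G : ℝ → ℂ} (hG : Continuous G) :
    HasSum (fun n : ℤ => ‖∫ t in (0 : ℝ)..1, ec n t * G t‖ ^ 2) (∫ t in (0 : ℝ)..1, ‖G t‖ ^ 2) := by
  have hab : (0 : ℝ) < 1 := one_pos
  obtain ⟨C, hC⟩ := (isCompact_Icc : IsCompact (Icc (0 : ℝ) 1)).exists_bound_of_continuousOn
    hG.continuousOn
  have hL2 : MemLp G 2 (volume.restrict (Ioc (0 : ℝ) 1)) := by
    apply MemLp.of_bound hG.aestronglyMeasurable C
    rw [ae_restrict_iff' measurableSet_Ioc]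
    exact Filter.Eventually.of_forall fun t ht => hC t ⟨ht.1.le, ht.2⟩
  have h1 := hasSum_sq_fourierCoeffOn hab hL2
  have e1 : ∀ n : ℤ, fourierCoeffOn hab G n = ∫ t in (0 : ℝ)..1, ec n t * G t := by
    intro n
    rw [fourierCoeffOn_eq_integral]
    have h2 : (1 : ℝ) / (1 - 0) = 1 := by norm_num
    rw [h2, one_smul]
    apply intervalIntegral.integral_congr
    intro t _
    simp only
    rw [fourier_coe_apply, smul_eq_mul]
    congr 1
    unfold ec
    congr 1
    push_cast
    simp
  simp only [e1] at h1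
  have h3 : ((1 : ℝ) - 0)⁻¹ • ∫ t in (0 : ℝ)..1, ‖G t‖ ^ 2 = ∫ t in (0 : ℝ)..1, ‖G t‖ ^ 2 := by
    norm_num
  rw [h3] at h1
  exact h1

/-- the `n`-th mode -/
def md (n : ℤ) (G : V2 × ℝ → ℂ) (y : V2) : ℂ := ∫ t in (0 : ℝ)..1, ec n t * G (y, t)

theorem continuous_md (n : ℤ) {G : V2 × ℝ → ℂ} (hG : Continuous G) : Continuous (md n G) := by
  unfold md
  apply intervalIntegral.continuous_parametric_intervalIntegral_of_continuous'
  exact ((continuous_ec n).comp continuous_snd).mul (hG.comp continuous_id)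

theorem md_intervalIntegrable (n : ℤ) {G : V2 × ℝ → ℂ} (hG : Continuous G) (y : V2) :
    IntervalIntegrable (fun t => ec n t * G (y, t)) volume 0 1 :=
  ((continuous_ec n).mul (hG.comp (Continuous.prodMk_right y))).intervalIntegrable 0 1

theorem md_add (n : ℤ) {G H : V2 × ℝ → ℂ} (hG : Continuous G) (hH : Continuous H) (y : V2) :
    md n (fun p => G p + H p) y = md n G y + md n H y := by
  unfold md
  rw [← intervalIntegral.integral_add (md_intervalIntegrable n hG y)
    (md_intervalIntegrable n hH y)]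
  apply intervalIntegral.integral_congr
  intro t _
  simp only
  ring

theorem md_sub (n : ℤ) {G H : V2 × ℝ → ℂ} (hG : Continuous G) (hH : Continuous H) (y : V2) :
    md n (fun p => G p - H p) y = md n G y - md n H y := by
  unfold md
  rw [← intervalIntegral.integral_sub (md_intervalIntegrable n hG y)
    (md_intervalIntegrable n hH y)]
  apply intervalIntegral.integral_congr
  intro t _
  simp only
  ring

/-- multiplication with a function of the first variable -/
theorem md_mul (n : ℤ) {G : V2 × ℝ → ℂ} (c : V2 → ℂ) (y : V2) :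
    md n (fun p => c p.1 * G p) y = c y * md n G y := by
  unfold md
  rw [← intervalIntegral.integral_const_mul]
  apply intervalIntegral.integral_congr
  intro t _
  simp only
  ring

/-- mode of the derivative in the last variable -/
theorem md_deriv (n : ℤ) {G G' : V2 × ℝ → ℂ} (hG : ∀ y t, HasDerivAt (fun s => G (y, s)) (G' (y, t)) t)
    (hG' : Continuous G') (hc : Continuous G) (hp : ∀ y t, G (y, t + 1) = G (y, t)) (y : V2) :
    md n G' y = 2 * Real.pi * Complex.I * n * md n G y := by
  have h1 : ∀ t ∈ uIcc (0 : ℝ) 1, HasDerivAt (fun t => ec n t * G (y, t))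
      (-(2 * Real.pi * Complex.I) * n * ec n t * G (y, t) + ec n t * G' (y, t)) t :=
    fun t _ => (hasDerivAt_ec n t).mul (hG y t)
  have hi1 : IntervalIntegrable (fun t => -(2 * Real.pi * Complex.I) * n * ec n t * G (y, t))
      volume 0 1 := by
    apply Continuous.intervalIntegrable
    exact (continuous_const.mul (continuous_ec n)).mul (hc.comp (Continuous.prodMk_right y))
  have hi2 := md_intervalIntegrable n hG' y
  have h2 := intervalIntegral.integral_eq_sub_of_hasDerivAt h1 (hi1.add hi2)
  have h3 : ec n 1 * G (y, 1) - ec n 0 * G (y, 0) = 0 := by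
    have := hp y 0
    rw [zero_add] at this
    rw [ec_one, ec_zero, this, sub_self]
  rw [h3, intervalIntegral.integral_add hi1 hi2] at h2
  have h4 : ∫ t in (0 : ℝ)..1, -(2 * Real.pi * Complex.I) * n * ec n t * G (y, t) =
      -(2 * Real.pi * Complex.I * n) * md n G y := by
    unfold md
    rw [← intervalIntegral.integral_const_mul]
    apply intervalIntegral.integral_congr
    intro t _
    simp only
    ring
  rw [h4] at h2
  unfold md at h2 ⊢
  linear_combination h2

/-- mode of a translate in the last variable -/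
theorem md_shift (n : ℤ) {G : V2 × ℝ → ℂ}
    (hp : ∀ y t, G (y, t + 1) = G (y, t)) (y y' : V2) (c : ℝ)
    (h : ∀ t, G (y', t) = G (y, t + c)) : md n G y' = (ec n (-c)) * md n G y := by
  unfold md
  have h1 : ∀ t, ec n t * G (y', t) = ec n (-c) * (ec n (t + c) * G (y, t + c)) := by
    intro t
    rw [h t]
    have : ec n t = ec n (-c) * ec n (t + c) := by
      rw [← ec_add]
      congr 1
      ring
    rw [this]
    ring
  simp only [h1]
  rw [intervalIntegral.integral_const_mul]
  congr 1
  have h2 := intervalIntegral.integral_comp_add_right (fun t => ec n t * G (y, t)) c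
    (a := 0) (b := 1)
  rw [h2]
  have h3 : Function.Periodic (fun t => ec n t * G (y, t)) 1 := by
    intro t
    simp only
    rw [ec_periodic, hp]
  have h4 := h3.intervalIntegral_add_eq (0 + c) 0
  rw [zero_add] at h4 ⊢
  rw [add_comm 1 c, h4]
  norm_num

/-- differentiation of modes -/
theorem hasFDerivAt_md (n : ℤ) {G : V2 × ℝ → ℂ} (hG : ContDiff ℝ 1 G) (y : V2) :
    HasFDerivAt (md n G)
      (∫ t in (0 : ℝ)..1, ec n t • (fderiv ℝ G (y, t)).comp (ContinuousLinearMap.inl ℝ V2 ℝ)) y := by
  have hfd : Continuous (fderiv ℝ G) := hG.continuous_fderiv one_ne_zero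
  have hK : IsCompact (Metric.closedBall y 1 ×ˢ Icc (0 : ℝ) 1) :=
    (isCompact_closedBall y 1).prod isCompact_Icc
  have hF' : Continuous (fun p : V2 × ℝ => ec n p.2 •
      (fderiv ℝ G p).comp (ContinuousLinearMap.inl ℝ V2 ℝ)) := by
    apply ((continuous_ec n).comp continuous_snd).smul
    exact hfd.clm_comp continuous_const
  obtain ⟨C, hC⟩ := hK.exists_bound_of_continuousOn hF'.continuousOn
  unfold md
  refine intervalIntegral.hasFDerivAt_integral_of_dominated_of_fderiv_le
    (F' := fun x t => ec n t • (fderiv ℝ G (x, t)).comp (ContinuousLinearMap.inl ℝ V2 ℝ))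
    (bound := fun _ => C) (Metric.closedBall_mem_nhds y one_pos) ?_ ?_ ?_ ?_ ?_ ?_
  · apply Filter.Eventually.of_forall
    intro x
    exact (((continuous_ec n).mul (hG.continuous.comp
      (Continuous.prodMk_right x))).aestronglyMeasurable)
  · exact md_intervalIntegrable n hG.continuous y
  · exact (hF'.comp (Continuous.prodMk_right y)).aestronglyMeasurable
  · apply Filter.Eventually.of_forall
    intro t ht x hx
    rw [uIoc_of_le zero_le_one] at ht
    exact hC (x, t) ⟨hx, ht.1.le, ht.2⟩
  · exact intervalIntegrable_const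
  · apply Filter.Eventually.of_forall
    intro t ht x hx
    have h1 : HasFDerivAt G (fderiv ℝ G (x, t)) (x, t) :=
      (hG.differentiable one_ne_zero (x, t)).hasFDerivAt
    have h2 : HasFDerivAt (fun x : V2 => (x, t)) (ContinuousLinearMap.inl ℝ V2 ℝ) x :=
      hasFDerivAt_prodMk_left x t
    have h3 := (h1.comp x h2).const_mul (ec n t)
    exact h3

theorem contDiff_md (n : ℤ) {G : V2 × ℝ → ℂ} (hG : ContDiff ℝ 1 G) : ContDiff ℝ 1 (md n G) := by
  rw [contDiff_one_iff_fderiv]
  refine ⟨fun y => (hasFDerivAt_md n hG y).differentiableAt, ?_⟩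
  have h1 : fderiv ℝ (md n G) = fun y =>
      ∫ t in (0 : ℝ)..1, ec n t • (fderiv ℝ G (y, t)).comp (ContinuousLinearMap.inl ℝ V2 ℝ) := by
    funext y
    exact (hasFDerivAt_md n hG y).fderiv
  rw [h1]
  apply intervalIntegral.continuous_parametric_intervalIntegral_of_continuous'
  have hfd : Continuous (fderiv ℝ G) := hG.continuous_fderiv one_ne_zero
  apply ((continuous_ec n).comp continuous_snd).smul
  exact (hfd.comp continuous_id).clm_comp continuous_const

theorem fderiv_md (n : ℤ) {G : V2 × ℝ → ℂ} (hG : ContDiff ℝ 1 G) (y v : V2) :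
    fderiv ℝ (md n G) y v = md n (fun p => fderiv ℝ G p (v, 0)) y := by
  rw [(hasFDerivAt_md n hG y).fderiv]
  unfold md
  have hfd : Continuous (fderiv ℝ G) := hG.continuous_fderiv one_ne_zero
  rw [ContinuousLinearMap.intervalIntegral_apply]
  · rfl
  · apply Continuous.intervalIntegrable
    apply (continuous_ec n).smul
    exact (hfd.comp (Continuous.prodMk_right y)).clm_comp continuous_const

/-- the map from `ℝ³` to `ℝ² × ℝ` -/
def sp (x : Fin 3 → ℝ) : V2 × ℝ := (![x 0, x 1], x 2)

/-- Tonelli and Parseval -/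
theorem parseval3 {G : V2 × ℝ → ℂ} (hG : Continuous G) :
    ∫⁻ x in Icc (0 : Fin 3 → ℝ) 1, ENNReal.ofReal (‖G (sp x)‖ ^ 2) =
      ∑' n : ℤ, ∫⁻ y in Q2, ENNReal.ofReal (‖md n G y‖ ^ 2) := by
  have hmeas : Measurable (fun q : ℝ × V2 => ENNReal.ofReal (‖G (q.2, q.1)‖ ^ 2)) :=
    ((hG.comp continuous_swap).norm.pow 2).measurable.ennreal_ofReal
  -- step 1: Tonelli
  have h1 : ∫⁻ x in Icc (0 : Fin 3 → ℝ) 1, ENNReal.ofReal (‖G (sp x)‖ ^ 2) =
      ∫⁻ y in Q2, ∫⁻ t in Icc (0 : ℝ) 1, ENNReal.ofReal (‖G (y, t)‖ ^ 2) := by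
    let e := MeasurableEquiv.piFinSuccAbove (fun _ : Fin 3 => ℝ) (Fin.last 2)
    have he : MeasurePreserving e volume volume :=
      volume_preserving_piFinSuccAbove (fun _ : Fin 3 => ℝ) (Fin.last 2)
    have hset : e ⁻¹' (Icc (0 : ℝ) 1 ×ˢ Q2) = Icc (0 : Fin 3 → ℝ) 1 := by
      ext x
      have h2 : e x = (x 2, ![x 0, x 1]) := by
        apply Prod.ext
        · rfl
        · funext i
          fin_cases i <;> rfl
      rw [mem_preimage, h2]
      constructor
      · rintro ⟨⟨a1, a2⟩, a3, a4⟩
        constructor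
        · intro i
          fin_cases i
          · exact a3 0
          · exact a3 1
          · exact a1
        · intro i
          fin_cases i
          · exact a4 0
          · exact a4 1
          · exact a2
      · rintro ⟨a1, a2⟩
        refine ⟨⟨a1 2, a2 2⟩, ?_, ?_⟩
        · intro i
          fin_cases i
          · exact a1 0
          · exact a1 1
        · intro i
          fin_cases i
          · exact a2 0
          · exact a2 1
    have h3 := he.setLIntegral_comp_preimage_emb e.measurableEmbedding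
      (fun q : ℝ × V2 => ENNReal.ofReal (‖G (q.2, q.1)‖ ^ 2)) (Icc (0 : ℝ) 1 ×ˢ Q2)
    rw [hset] at h3
    have h4 : ∫⁻ x in Icc (0 : Fin 3 → ℝ) 1, ENNReal.ofReal (‖G (sp x)‖ ^ 2) =
        ∫⁻ x in Icc (0 : Fin 3 → ℝ) 1, (fun q : ℝ × V2 => ENNReal.ofReal (‖G (q.2, q.1)‖ ^ 2)) (e x) := by
      apply lintegral_congr
      intro x
      have h2 : e x = (x 2, ![x 0, x 1]) := by
        apply Prod.ext
        · rfl
        · funext i
          fin_cases i <;> rfl
      simp only [h2]
      rfl
    rw [h4, h3]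
    rw [Measure.volume_eq_prod, ← Measure.prod_restrict, lintegral_prod_symm _ hmeas.aemeasurable]
  rw [h1, ← lintegral_tsum]
  · apply lintegral_congr
    intro y
    have hGy : Continuous (fun t => G (y, t)) := hG.comp (Continuous.prodMk_right y)
    have h2 := parseval1 hGy
    have h3 : ∫⁻ t in Icc (0 : ℝ) 1, ENNReal.ofReal (‖G (y, t)‖ ^ 2) =
        ENNReal.ofReal (∫ t in (0 : ℝ)..1, ‖G (y, t)‖ ^ 2) := by
      rw [intervalIntegral.integral_of_le zero_le_one, ← integral_Icc_eq_integral_Ioc,
        ofReal_integral_eq_lintegral_ofReal]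
      · exact (hGy.norm.pow 2).integrableOn_Icc
      · exact Filter.Eventually.of_forall fun t => by positivity
    rw [h3, ← h2.tsum_eq, ENNReal.ofReal_tsum_of_nonneg (fun n => by positivity) h2.summable]
    rfl
  · intro n
    exact ((continuous_md n hG).norm.pow 2).measurable.ennreal_ofReal.aemeasurable

end

end Pool.Agent.Helper99.Pic
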