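import Mathlib
import Pool.Agent.Helper99.Pic.Modes

/-!
# Fourier analysis on the unit square (port of Helper44/Ram5/W)
-/

set_option autoImplicit false

namespace Pool.Agent.Helper99.Pic

open MeasureTheory Topology Set

noncomputable section

local instance : MeasureSpace UnitAddCircle := ⟨AddCircle.haarAddCircle⟩

local instance : Measure.IsAddHaarMeasure (volume : Measure UnitAddCircle) :=
  inferInstanceAs (Measure.IsAddHaarMeasure AddCircle.haarAddCircle)

local instance : IsProbabilityMeasure (volume : Measure UnitAddCircle) :=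
  inferInstanceAs (IsProbabilityMeasure AddCircle.haarAddCircle)

abbrev V := Fin 2 → ℝ

/-- the unit square -/
abbrev Q : Set V := Icc (0 : V) 1

/-- representative of a point of the torus in the cube -/
def rep (t : UnitAddTorus (Fin 2)) : V := (UnitAddTorus.measurableEquivPiIoc (0 : V) t).1

theorem measurable_rep : Measurable rep :=
  measurable_subtype_coe.comp (UnitAddTorus.measurableEquivPiIoc (0 : V)).measurable

theorem rep_mem (t : UnitAddTorus (Fin 2)) : rep t ∈ Q := by
  have h := (UnitAddTorus.measurableEquivPiIoc (0 : V) t).2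
  constructor
  · intro i
    exact (h i).1.le
  · intro i
    have := (h i).2
    have e : ((0 : V) i) + 1 = (1 : V) i := by simp
    rw [e] at this
    exact this

theorem rep_coe {x : V} (hx : ∀ i, x i ∈ Ioc ((0 : V) i) ((0 : V) i + 1)) :
    rep (fun i => (x i : UnitAddCircle)) = x := by
  have := (UnitAddTorus.measurableEquivPiIoc (0 : V)).apply_symm_apply ⟨x, hx⟩
  have h2 := congrArg Subtype.val this
  exact h2

theorem setQ : {x : V | ∀ i, x i ∈ Ioc ((0 : V) i) ((0 : V) i + 1)} =ᵐ[volume] Q := by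
  have h : {x : V | ∀ i, x i ∈ Ioc ((0 : V) i) ((0 : V) i + 1)} =
      Set.pi univ fun i => Ioc ((0 : V) i) ((1 : V) i) := by
    ext x
    simp
  rw [h]
  exact Measure.univ_pi_Ioc_ae_eq_Icc

theorem integral_torus {E : Type*} [NormedAddCommGroup E] [NormedSpace ℝ E]
    (F : UnitAddTorus (Fin 2) → E) (F' : V → E)
    (h : ∀ x : V, (∀ i, x i ∈ Ioc ((0 : V) i) ((0 : V) i + 1)) →
      F (fun i => (x i : UnitAddCircle)) = F' x) :
    ∫ t, F t = ∫ x in Q, F' x := by
  rw [UnitAddTorus.integral_preimage F 0, ← setIntegral_congr_set setQ]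
  apply setIntegral_congr_fun
  · exact MeasurableSet.univ_pi' (fun i => measurableSet_Ioc)
  · intro x hx
    exact h x hx

/-- the characters -/
def ch (n : Fin 2 → ℤ) (x : V) : ℂ :=
  Complex.exp (-(2 * Real.pi * Complex.I) * ∑ i, (n i : ℂ) * (x i : ℂ))

theorem mF (n : Fin 2 → ℤ) (x : V) :
    UnitAddTorus.mFourier (-n) (fun i => (x i : UnitAddCircle)) = ch n x := by
  unfold UnitAddTorus.mFourier ch
  simp only [ContinuousMap.coe_mk, fourier_coe_apply]
  rw [← Complex.exp_sum, Finset.mul_sum]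
  congr 1
  apply Finset.sum_congr rfl
  intro i _
  simp
  ring

/-- Fourier coefficients -/
def co (G : V → ℂ) (n : Fin 2 → ℤ) : ℂ := ∫ x in Q, ch n x * G x

theorem parseval {G : V → ℂ} (hG : Continuous G) :
    HasSum (fun n => ‖co G n‖ ^ 2) (∫ x in Q, ‖G x‖ ^ 2) := by
  obtain ⟨C, hC⟩ := (isCompact_Icc : IsCompact Q).exists_bound_of_continuousOn hG.continuousOn
  have hm : MemLp (fun t => G (rep t)) 2 (volume : Measure (UnitAddTorus (Fin 2))) :=
    MemLp.of_bound (hG.measurable.comp measurable_rep).aestronglyMeasurable C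
      (Filter.Eventually.of_forall fun t => hC _ (rep_mem t))
  have h1 := UnitAddTorus.hasSum_sq_mFourierCoeff hm.toLp
  have e1 : ∀ n, UnitAddTorus.mFourierCoeff hm.toLp n = co G n := by
    intro n
    unfold UnitAddTorus.mFourierCoeff co
    have : ∫ t, UnitAddTorus.mFourier (-n) t • (hm.toLp : UnitAddTorus (Fin 2) → ℂ) t =
        ∫ t, UnitAddTorus.mFourier (-n) t • G (rep t) := by
      apply integral_congr_ae
      filter_upwards [hm.coeFn_toLp] with t ht
      rw [ht]
    rw [this]
    apply integral_torus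
    intro x hx
    rw [rep_coe hx, mF, smul_eq_mul]
  have e2 : ∫ t, ‖(hm.toLp : UnitAddTorus (Fin 2) → ℂ) t‖ ^ 2 = ∫ x in Q, ‖G x‖ ^ 2 := by
    have : ∫ t, ‖(hm.toLp : UnitAddTorus (Fin 2) → ℂ) t‖ ^ 2 = ∫ t, ‖G (rep t)‖ ^ 2 := by
      apply integral_congr_ae
      filter_upwards [hm.coeFn_toLp] with t ht
      rw [ht]
    rw [this]
    apply integral_torus
    intro x hx
    rw [rep_coe hx]
  simp only [e1] at h1
  rw [e2] at h1
  exact h1

/-- integral of a derivative of a periodic function -/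
theorem int_deriv {H : V → ℂ} (hH : ContDiff ℝ 1 H) (i : Fin 2)
    (hp : ∀ x, H (x + Pi.single i 1) = H x) :
    ∫ x in Q, fderiv ℝ H x (Pi.single i 1) = 0 := by
  have hc : Continuous (fun x => fderiv ℝ H x (Pi.single i 1)) :=
    (hH.continuous_fderiv one_ne_zero).clm_apply continuous_const
  have hs : ∀ x : V, ∑ j, (if j = i then fderiv ℝ H x else 0) (Pi.single j 1) =
      fderiv ℝ H x (Pi.single i 1) := by
    intro x
    rw [Finset.sum_eq_single i]
    · rw [if_pos rfl]
    · intro j _ hj
      rw [if_neg hj]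
      rfl
    · intro h
      exact absurd (Finset.mem_univ i) h
  have key := integral_divergence_of_hasFDerivAt_off_countable' (n := 1) (E := ℂ)
    (0 : V) 1 (by intro j; simp) (fun j => if j = i then H else fun _ => 0)
    (fun j x => if j = i then fderiv ℝ H x else 0) ∅ countable_empty
    (by
      intro j
      by_cases hj : j = i
      · simp only [if_pos hj]
        exact hH.continuous.continuousOn
      · simp only [if_neg hj]
        exact continuousOn_const)
    (by
      intro x _ j
      by_cases hj : j = i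
      · simp only [if_pos hj]
        exact (hH.differentiable (by norm_num) x).hasFDerivAt
      · simp only [if_neg hj]
        exact hasFDerivAt_const _ _)
    (by
      simp only [hs]
      exact hc.continuousOn.integrableOn_compact isCompact_Icc)
  simp only [hs] at key
  rw [key]
  apply Finset.sum_eq_zero
  intro j _
  by_cases hj : j = i
  · subst hj
    rw [sub_eq_zero]
    congr 1
    funext y
    simp only [if_true]
    have e : (j.insertNth ((1 : V) j) y : V) = (j.insertNth ((0 : V) j) y : V) + Pi.single j 1 := by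
      funext l
      refine Fin.succAboveCases j ?_ ?_ l
      · simp
      · intro l
        simp
    exact (congrArg H e).trans (hp _)
  · simp only [if_neg hj]
    simp

theorem contDiff_ch (n : Fin 2 → ℤ) : ContDiff ℝ 1 (ch n) := by
  unfold ch
  apply ContDiff.cexp
  apply contDiff_const.mul
  apply ContDiff.sum
  intro i _
  apply contDiff_const.mul
  exact Complex.ofRealCLM.contDiff.comp (contDiff_apply ℝ ℝ i)

theorem deriv_ch (n : Fin 2 → ℤ) (i : Fin 2) (x : V) :
    fderiv ℝ (ch n) x (Pi.single i 1) = -(2 * Real.pi * Complex.I) * n i * ch n x := by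
  have h1 : HasFDerivAt (fun x : V => ∑ i, (n i : ℂ) * (x i : ℂ))
      (∑ i, (n i : ℂ) • (Complex.ofRealCLM.comp (ContinuousLinearMap.proj (R := ℝ)
        (φ := fun _ : Fin 2 => ℝ) i))) x := by
    apply HasFDerivAt.fun_sum
    intro i _
    exact ((Complex.ofRealCLM.comp (ContinuousLinearMap.proj (R := ℝ)
        (φ := fun _ : Fin 2 => ℝ) i)).hasFDerivAt).const_mul (n i : ℂ)
  have h2 := (h1.const_mul (-(2 * Real.pi * Complex.I))).cexp
  have h3 : fderiv ℝ (ch n) x = _ := h2.fderiv
  rw [h3]
  have h4 : (∑ j, (n j : ℂ) • (Complex.ofRealCLM.comp (ContinuousLinearMap.proj (R := ℝ)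
        (φ := fun _ : Fin 2 => ℝ) j)) : V →L[ℝ] ℂ) (Pi.single i 1) = n i := by
    rw [sum_apply, Finset.sum_eq_single i]
    · simp
    · intro j _ hj
      simp [hj]
    · intro h
      exact absurd (Finset.mem_univ i) h
  rw [smul_apply, smul_apply, h4]
  unfold ch
  simp only [smul_eq_mul]
  ring

theorem ch_per (n : Fin 2 → ℤ) (i : Fin 2) (x : V) : ch n (x + Pi.single i 1) = ch n x := by
  unfold ch
  have : ∑ j, (n j : ℂ) * (((x + Pi.single i 1 : V) j : ℝ) : ℂ) =
      (∑ j, (n j : ℂ) * (x j : ℂ)) + n i := by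
    simp only [Pi.add_apply, Complex.ofReal_add, mul_add, Finset.sum_add_distrib]
    congr 1
    rw [Finset.sum_eq_single i]
    · simp
    · intro j _ hj
      simp [hj]
    · intro h
      exact absurd (Finset.mem_univ i) h
  rw [this, mul_add, Complex.exp_add]
  have h2 : Complex.exp (-(2 * Real.pi * Complex.I) * n i) = 1 := by
    rw [Complex.exp_eq_one_iff]
    exact ⟨-n i, by push_cast; ring⟩
  rw [h2, mul_one]

/-- coefficient of a derivative -/
theorem co_deriv {G : V → ℂ} (hG : ContDiff ℝ 1 G) (i : Fin 2)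
    (hp : ∀ x, G (x + Pi.single i 1) = G x) (n : Fin 2 → ℤ) :
    co (fun x => fderiv ℝ G x (Pi.single i 1)) n = 2 * Real.pi * Complex.I * n i * co G n := by
  have h1 := int_deriv (H := fun x => ch n x * G x) ((contDiff_ch n).mul hG) i
    (fun x => by rw [ch_per, hp])
  have e : ∀ x, fderiv ℝ (fun x => ch n x * G x) x (Pi.single i 1) =
      ch n x * fderiv ℝ G x (Pi.single i 1) - (2 * Real.pi * Complex.I * n i) * (ch n x * G x) := by
    intro x
    have d1 : DifferentiableAt ℝ (ch n) x := (contDiff_ch n).differentiable (by norm_num) x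
    have d2 : DifferentiableAt ℝ G x := hG.differentiable (by norm_num) x
    rw [fderiv_fun_mul d1 d2]
    simp only [add_apply, smul_apply, smul_eq_mul]
    rw [deriv_ch]
    ring
  simp only [e] at h1
  have i1 : IntegrableOn (fun x => ch n x * fderiv ℝ G x (Pi.single i 1)) Q := by
    apply Continuous.integrableOn_Icc
    exact (contDiff_ch n).continuous.mul
      ((hG.continuous_fderiv one_ne_zero).clm_apply continuous_const)
  have i2 : IntegrableOn (fun x => (2 * Real.pi * Complex.I * n i) * (ch n x * G x)) Q := by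
    apply Continuous.integrableOn_Icc
    exact continuous_const.mul ((contDiff_ch n).continuous.mul hG.continuous)
  rw [integral_sub i1 i2, integral_const_mul, sub_eq_zero] at h1
  exact h1

theorem co_lin {a b : V → ℂ} (ha : Continuous a) (hb : Continuous b) (s t : ℂ)
    (n : Fin 2 → ℤ) :
    co (fun x => s * a x + t * b x) n = s * co a n + t * co b n := by
  have hn := (contDiff_ch n).continuous
  have ia : IntegrableOn (fun x => ch n x * a x) Q := (hn.mul ha).integrableOn_Icc
  have ib : IntegrableOn (fun x => ch n x * b x) Q := (hn.mul hb).integrableOn_Icc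
  have e1 : ∫ x in Q, s * (ch n x * a x) = s * ∫ x in Q, ch n x * a x := integral_const_mul _ _
  have e2 : ∫ x in Q, t * (ch n x * b x) = t * ∫ x in Q, ch n x * b x := integral_const_mul _ _
  unfold co
  rw [← e1, ← e2, ← integral_add (ia.const_mul s) (ib.const_mul t)]
  congr 1
  funext x
  ring

/-- the two-dimensional Wirtinger inequality for the hexagonal form -/
theorem abel {G : V → ℂ} (hG : ContDiff ℝ 1 G) (hp : ∀ i x, G (x + Pi.single i 1) = G x)
    (hm : ∫ x in Q, G x = 0) {X Y : V → ℂ}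
    (hY : ∀ x, Y x = ((1 / Real.sqrt 3 : ℝ) : ℂ) * fderiv ℝ G x (Pi.single 0 1) +
      0 * fderiv ℝ G x (Pi.single 1 1))
    (hX : ∀ x, X x = (-(1 / 3) : ℂ) * fderiv ℝ G x (Pi.single 0 1) +
      (-(2 / 3) : ℂ) * fderiv ℝ G x (Pi.single 1 1)) :
    16 * Real.pi ^ 2 / 9 * ∫ x in Q, ‖G x‖ ^ 2 ≤
      (∫ x in Q, ‖X x‖ ^ 2) + ∫ x in Q, ‖Y x‖ ^ 2 := by
  have hc : ∀ i : Fin 2, Continuous (fun x => fderiv ℝ G x (Pi.single i 1)) := fun i =>
    (hG.continuous_fderiv one_ne_zero).clm_apply continuous_const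
  have hX' : X = fun x => (-(1 / 3) : ℂ) * fderiv ℝ G x (Pi.single 0 1) +
      (-(2 / 3) : ℂ) * fderiv ℝ G x (Pi.single 1 1) := funext hX
  have hY' : Y = fun x => ((1 / Real.sqrt 3 : ℝ) : ℂ) * fderiv ℝ G x (Pi.single 0 1) +
      0 * fderiv ℝ G x (Pi.single 1 1) := funext hY
  have hcX : Continuous X := by
    rw [hX']
    exact (continuous_const.mul (hc 0)).add (continuous_const.mul (hc 1))
  have hcY : Continuous Y := by
    rw [hY']
    exact (continuous_const.mul (hc 0)).add (continuous_const.mul (hc 1))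
  have p := parseval hG.continuous
  have pX := parseval hcX
  have pY := parseval hcY
  have hco0 : co G 0 = 0 := by
    unfold co ch
    simpa using hm
  have key : ∀ n : Fin 2 → ℤ, 16 * Real.pi ^ 2 / 9 * ‖co G n‖ ^ 2 ≤
      ‖co X n‖ ^ 2 + ‖co Y n‖ ^ 2 := by
    intro n
    have eX : co X n = ((2 * Real.pi * Complex.I) * (-(((n 0 : ℝ) + 2 * (n 1 : ℝ)) / 3 : ℝ) : ℂ))
        * co G n := by
      rw [hX', co_lin (hc 0) (hc 1), co_deriv hG 0 (hp 0), co_deriv hG 1 (hp 1)]
      push_cast
      ring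
    have eY : co Y n = ((2 * Real.pi * Complex.I) * (((n 0 : ℝ) / Real.sqrt 3 : ℝ) : ℂ))
        * co G n := by
      rw [hY', co_lin (hc 0) (hc 1), co_deriv hG 0 (hp 0), co_deriv hG 1 (hp 1)]
      push_cast
      ring
    have nrm : ∀ m : ℝ, ‖2 * Real.pi * Complex.I * (m : ℂ) * co G n‖ ^ 2 =
        4 * Real.pi ^ 2 * m ^ 2 * ‖co G n‖ ^ 2 := by
      intro m
      rw [norm_mul, norm_mul, norm_mul, norm_mul, Complex.norm_I]
      simp only [Complex.norm_real, Complex.norm_ofNat, Real.norm_eq_abs]
      rw [mul_one, mul_pow, mul_pow, mul_pow, sq_abs, sq_abs]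
      norm_num
    have nX : ‖co X n‖ ^ 2 = 4 * Real.pi ^ 2 * ((((n 0 : ℝ) + 2 * (n 1 : ℝ)) / 3)) ^ 2 *
        ‖co G n‖ ^ 2 := by
      rw [eX, ← nrm, ← norm_neg]
      congr 2
      push_cast
      ring
    have nY : ‖co Y n‖ ^ 2 = 4 * Real.pi ^ 2 * ((n 0 : ℝ) / Real.sqrt 3) ^ 2 *
        ‖co G n‖ ^ 2 := by
      rw [eY, ← nrm]
    rw [nX, nY, div_pow, div_pow, Real.sq_sqrt (by norm_num : (0 : ℝ) ≤ 3)]
    by_cases hn : n = 0
    · rw [hn, hco0]
      simp
    · have h2 : (1 : ℤ) ≤ (n 0) ^ 2 + (n 0) * (n 1) + (n 1) ^ 2 := by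
        by_contra hcon
        push Not at hcon
        have h0 : n 0 = 0 := by nlinarith [sq_nonneg (n 0 + 2 * n 1), sq_nonneg (n 0)]
        have h1 : n 1 = 0 := by
          rw [h0] at hcon
          nlinarith [sq_nonneg (n 1)]
        apply hn
        funext i
        fin_cases i
        · exact h0
        · exact h1
      have h3 : (1 : ℝ) ≤ (n 0 : ℝ) ^ 2 + (n 0 : ℝ) * (n 1 : ℝ) + (n 1 : ℝ) ^ 2 := by
        exact_mod_cast h2
      have h4 : 0 ≤ Real.pi ^ 2 * ‖co G n‖ ^ 2 := by positivity
      have h5 := mul_le_mul_of_nonneg_left h3 h4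
      nlinarith
  have h := hasSum_le key (p.mul_left (16 * Real.pi ^ 2 / 9)) (pX.add pY)
  exact h

end

end Pool.Agent.Helper99.Pic
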