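import Pool.Agent.Helper10.Pic.Lib
import Pool.Agent.Helper99.Pic.Square

/-!
# Heisenberg coordinates on a horosphere
-/

set_option autoImplicit false

namespace Pool.Agent.Helper99.Pic

open Pool.Agent.Helper10.Pic
open MeasureTheory Topology Set
open scoped ComplexConjugate

noncomputable section

/-- the horosphere of height `u` in coordinates -/
def pt (u : ℝ) (p : V2 × ℝ) : Pt :=
  (((-(u + 3 * (p.1 0 ^ 2 - p.1 0 * p.1 1 + p.1 1 ^ 2)) / 2 : ℝ) : ℂ) +
    ((Real.sqrt 3 * p.2 : ℝ) : ℂ) * Complex.I, th * ((p.1 0 : ℂ) + (p.1 1 : ℂ) * om))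

theorem s3 : Real.sqrt 3 * Real.sqrt 3 = 3 := Real.mul_self_sqrt (by norm_num)

theorem s3pos : 0 < Real.sqrt 3 := Real.sqrt_pos.mpr (by norm_num)

theorem th_re : th.re = 0 := rfl

theorem th_im : th.im = Real.sqrt 3 := rfl

theorem om_re : om.re = -1 / 2 := rfl

theorem om_im : om.im = Real.sqrt 3 / 2 := rfl

theorem normsq (z : ℂ) : ‖z‖ ^ 2 = z.re ^ 2 + z.im ^ 2 := by
  rw [← Complex.normSq_eq_norm_sq, Complex.normSq_apply]
  ring

theorem pt2_re (a b : ℝ) : (th * ((a : ℂ) + (b : ℂ) * om)).re = -(3 / 2) * b := by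
  simp only [Complex.mul_re, Complex.add_re, Complex.add_im, Complex.mul_im, Complex.ofReal_re,
    Complex.ofReal_im, th_re, th_im, om_re, om_im]
  linear_combination (-b / 2) * s3

theorem pt2_im (a b : ℝ) : (th * ((a : ℂ) + (b : ℂ) * om)).im = Real.sqrt 3 * (a - b / 2) := by
  simp only [Complex.mul_re, Complex.add_re, Complex.add_im, Complex.mul_im, Complex.ofReal_re,
    Complex.ofReal_im, th_re, th_im, om_re, om_im]
  ring

theorem cellpt_eq (x : Fin 3 → ℝ) (u : ℝ) : cellpt x u = pt u (sp x) := by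
  have h0 : (sp x).1 0 = x 0 := rfl
  have h1 : (sp x).1 1 = x 1 := rfl
  have h2 : (sp x).2 = x 2 := rfl
  unfold cellpt pt
  rw [h0, h1, h2]
  apply Prod.ext
  · simp only
    apply Complex.ext
    · have h3 : ‖th * ((x 0 : ℂ) + (x 1 : ℂ) * om)‖ ^ 2 =
          3 * (x 0 ^ 2 - x 0 * x 1 + x 1 ^ 2) := by
        rw [normsq, pt2_re, pt2_im]
        linear_combination (x 0 - x 1 / 2) ^ 2 * s3
      rw [h3]
      simp only [Complex.add_re, Complex.ofReal_re, Complex.mul_re, Complex.I_re, Complex.I_im,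
        Complex.ofReal_im]
      ring
    · simp only [Complex.add_im, Complex.ofReal_re, Complex.mul_im, Complex.I_re, Complex.I_im,
        Complex.ofReal_im]
      ring
  · rfl

theorem hgt_pt (u : ℝ) (p : V2 × ℝ) : hgt (pt u p) = u := by
  unfold hgt pt
  rw [normsq, pt2_re, pt2_im]
  simp only [Complex.add_re, Complex.ofReal_re, Complex.mul_re, Complex.I_re, Complex.I_im,
    Complex.ofReal_im, mul_zero, mul_one, sub_zero, add_zero]
  linear_combination (-(p.1 0 - p.1 1 / 2) ^ 2) * s3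

theorem contDiff_pt (u : ℝ) : ContDiff ℝ 2 (pt u) := by
  have h0 : ContDiff ℝ 2 (fun p : V2 × ℝ => p.1 0) := (contDiff_apply ℝ ℝ (0 : Fin 2)).comp contDiff_fst
  have h1 : ContDiff ℝ 2 (fun p : V2 × ℝ => p.1 1) := (contDiff_apply ℝ ℝ (1 : Fin 2)).comp contDiff_fst
  have h2 : ContDiff ℝ 2 (fun p : V2 × ℝ => p.2) := contDiff_snd
  have hof : ContDiff ℝ 2 (fun x : ℝ => (x : ℂ)) := Complex.ofRealCLM.contDiff
  unfold pt
  apply ContDiff.prodMk
  · apply ContDiff.add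
    · apply hof.comp
      fun_prop
    · apply ContDiff.mul _ contDiff_const
      apply hof.comp
      fun_prop
  · apply contDiff_const.mul
    exact (hof.comp h0).add ((hof.comp h1).mul contDiff_const)

theorem fderiv_pt (u : ℝ) (p v : V2 × ℝ) : fderiv ℝ (pt u) p v =
    (((-(3 * (2 * p.1 0 * v.1 0 - p.1 0 * v.1 1 - v.1 0 * p.1 1 + 2 * p.1 1 * v.1 1)) / 2 : ℝ) : ℂ) +
    ((Real.sqrt 3 * v.2 : ℝ) : ℂ) * Complex.I, th * ((v.1 0 : ℂ) + (v.1 1 : ℂ) * om)) := by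
  have hd : DifferentiableAt ℝ (pt u) p := (contDiff_pt u).differentiable (by norm_num) p
  have h1 : HasDerivAt (fun s : ℝ => p + s • v) v 0 := by
    have := ((hasDerivAt_id (0 : ℝ)).smul_const v).const_add p
    simpa using this
  have h2 : HasDerivAt (fun s : ℝ => pt u (p + s • v)) (fderiv ℝ (pt u) p v) 0 := by
    have h3 : HasFDerivAt (pt u) (fderiv ℝ (pt u) p) (p + (0 : ℝ) • v) := by
      rw [zero_smul, add_zero]
      exact hd.hasFDerivAt
    exact h3.comp_hasDerivAt (0 : ℝ) h1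
  have e0 : ∀ s : ℝ, (p + s • v).1 0 = p.1 0 + s * v.1 0 := fun s => rfl
  have e1 : ∀ s : ℝ, (p + s • v).1 1 = p.1 1 + s * v.1 1 := fun s => rfl
  have e2 : ∀ s : ℝ, (p + s • v).2 = p.2 + s * v.2 := fun s => rfl
  have d0 : HasDerivAt (fun s : ℝ => p.1 0 + s * v.1 0) (v.1 0) 0 := by
    simpa using ((hasDerivAt_id (0 : ℝ)).mul_const (v.1 0)).const_add (p.1 0)
  have d1 : HasDerivAt (fun s : ℝ => p.1 1 + s * v.1 1) (v.1 1) 0 := by
    simpa using ((hasDerivAt_id (0 : ℝ)).mul_const (v.1 1)).const_add (p.1 1)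
  have d2 : HasDerivAt (fun s : ℝ => p.2 + s * v.2) (v.2) 0 := by
    simpa using ((hasDerivAt_id (0 : ℝ)).mul_const (v.2)).const_add (p.2)
  have h4 : HasDerivAt (fun s : ℝ => pt u (p + s • v))
      (((-(3 * (2 * p.1 0 * v.1 0 - p.1 0 * v.1 1 - v.1 0 * p.1 1 + 2 * p.1 1 * v.1 1)) / 2 : ℝ) : ℂ) +
    ((Real.sqrt 3 * v.2 : ℝ) : ℂ) * Complex.I, th * ((v.1 0 : ℂ) + (v.1 1 : ℂ) * om)) 0 := by
    unfold pt
    simp only [e0, e1, e2]
    apply HasDerivAt.prodMk
    · apply HasDerivAt.add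
      · have h5 : HasDerivAt (fun s : ℝ => -(u + 3 * ((p.1 0 + s * v.1 0) ^ 2 -
            (p.1 0 + s * v.1 0) * (p.1 1 + s * v.1 1) + (p.1 1 + s * v.1 1) ^ 2)) / 2)
            (-(3 * (2 * p.1 0 * v.1 0 - p.1 0 * v.1 1 - v.1 0 * p.1 1 + 2 * p.1 1 * v.1 1)) / 2) 0 := by
          have h6 := (((((d0.pow 2).sub (d0.mul d1)).add (d1.pow 2)).const_mul 3).const_add u).neg.div_const 2
          refine h6.congr_deriv ?_
          simp
          ring
        exact h5.ofReal_comp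
      · apply HasDerivAt.mul_const
        have h5 : HasDerivAt (fun s : ℝ => Real.sqrt 3 * (p.2 + s * v.2)) (Real.sqrt 3 * v.2) 0 :=
          d2.const_mul _
        exact h5.ofReal_comp
    · apply HasDerivAt.const_mul
      exact (d0.ofReal_comp).add ((d1.ofReal_comp).mul_const om)
  exact h2.unique h4

theorem isOpen_SD : IsOpen SD := by
  have h : Continuous hgt := by
    unfold hgt
    fun_prop
  exact isOpen_lt continuous_const h

theorem pt_mem {u : ℝ} (hu : 0 < u) (p : V2 × ℝ) : pt u p ∈ SD := by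
  change 0 < hgt (pt u p)
  rw [hgt_pt]
  exact hu

/-- the derivative in the central direction -/
def ZZ (f : Pt → ℂ) (p : Pt) : ℂ := pd (Complex.I, 0) f p

theorem dir0 (u : ℝ) (p : V2 × ℝ) : fderiv ℝ (pt u) p (Pi.single 0 1, 0) =
    Real.sqrt 3 • (-(Complex.I * conj (pt u p).2), Complex.I) -
      (3 * Real.sqrt 3 / 2 * p.1 1) • ((Complex.I, 0) : Pt) := by
  rw [fderiv_pt]
  apply Prod.ext
  · apply Complex.ext
    · simp [pt, om_re, om_im, th_re, th_im]
      linear_combination (p.1 0 - p.1 1 / 2) * s3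
    · simp [pt, om_re, om_im, th_re, th_im]
      linear_combination (-(Real.sqrt 3) * (p.1 1) / 2) * s3
  · apply Complex.ext
    · simp [th_re, th_im]
    · simp [th_re, th_im]

theorem dir1 (u : ℝ) (p : V2 × ℝ) : fderiv ℝ (pt u) p (Pi.single 1 1, 0) =
    (-(3 / 2) : ℝ) • (-conj (pt u p).2, (1 : ℂ)) -
    (Real.sqrt 3 / 2) • (-(Complex.I * conj (pt u p).2), Complex.I) +
      (3 * Real.sqrt 3 / 2 * p.1 0) • ((Complex.I, 0) : Pt) := by
  rw [fderiv_pt]
  apply Prod.ext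
  · apply Complex.ext
    · simp [pt, om_re, om_im, th_re, th_im]
      linear_combination (-(p.1 0) / 2 + (p.1 1)) * s3
    · simp [pt, om_re, om_im, th_re, th_im]
      linear_combination ((Real.sqrt 3) * (p.1 1) / 4) * s3
  · apply Complex.ext
    · simp [th_re, th_im, om_re, om_im]
      linear_combination ((1 : ℝ) / 2) * s3
    · simp [th_re, th_im, om_re, om_im]
      ring

theorem dirt (u : ℝ) (p : V2 × ℝ) : fderiv ℝ (pt u) p (0, 1) =
    (Real.sqrt 3) • ((Complex.I, 0) : Pt) := by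
  rw [fderiv_pt]
  apply Prod.ext
  · apply Complex.ext
    · simp
    · simp
  · simp

/-! ### Invariance -/

/-- invariance under the Heisenberg lattice -/
def Inv (ψ : Pt → ℂ) : Prop := ∀ a b, InN a b → ∀ p ∈ SD, ψ (act (T a b) p) = ψ p

theorem actT (a b : ℂ) (p : Pt) : act (T a b) p = (p.1 - conj b * p.2 + a, p.2 + b) := by
  unfold act pnt vec T
  simp

theorem actT_mem {a b : ℂ} (h : InN a b) {p : Pt} (hp : p ∈ SD) : act (T a b) p ∈ SD := by
  have h1 : hgt (act (T a b) p) = hgt p := by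
    have h2 := h.2.2
    rw [actT]
    unfold hgt
    rw [normsq] at h2 ⊢
    rw [normsq]
    simp only [Complex.add_re, Complex.sub_re, Complex.mul_re, Complex.conj_re, Complex.conj_im,
      Complex.add_im]
    linear_combination -h2
  change 0 < hgt (act (T a b) p)
  rw [h1]
  exact hp

theorem hasFDerivAt_actT (a b : ℂ) (p : Pt) : HasFDerivAt (act (T a b))
    ((ContinuousLinearMap.fst ℝ ℂ ℂ - (conj b) • ContinuousLinearMap.snd ℝ ℂ ℂ).prod
      (ContinuousLinearMap.snd ℝ ℂ ℂ)) p := by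
  have h1 : act (T a b) = fun p : Pt => (p.1 - conj b * p.2 + a, p.2 + b) := by
    funext p
    exact actT a b p
  rw [h1]
  apply HasFDerivAt.prodMk
  · exact ((hasFDerivAt_fst.sub (hasFDerivAt_snd.const_mul (conj b)))).add_const a
  · exact hasFDerivAt_snd.add_const b

theorem fderiv_inv {ψ : Pt → ℂ} (hψ : ContDiffOn ℝ 1 ψ SD) (hi : Inv ψ) {a b : ℂ}
    (hab : InN a b) {p : Pt} (hp : p ∈ SD) (v : Pt) :
    fderiv ℝ ψ (act (T a b) p) (v.1 - conj b * v.2, v.2) = fderiv ℝ ψ p v := by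
  have h1 : (fun q => ψ (act (T a b) q)) =ᶠ[𝓝 p] ψ := by
    filter_upwards [isOpen_SD.mem_nhds hp] with q hq
    exact hi a b hab q hq
  have h2 : HasFDerivAt ψ (fderiv ℝ ψ (act (T a b) p)) (act (T a b) p) :=
    ((hψ.contDiffAt (isOpen_SD.mem_nhds (actT_mem hab hp))).differentiableAt
      (by norm_num)).hasFDerivAt
  have h3 := h2.comp p (hasFDerivAt_actT a b p)
  rw [← h1.fderiv_eq]
  have h4 : fderiv ℝ (fun q => ψ (act (T a b) q)) p = _ := h3.fderiv
  rw [h4]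
  rfl

theorem Inv.xx {ψ : Pt → ℂ} (hψ : ContDiffOn ℝ 1 ψ SD) (hi : Inv ψ) : Inv (XX ψ) := by
  intro a b hab p hp
  unfold XX
  rw [← fderiv_inv hψ hi hab hp (-conj p.2, 1), actT]
  congr 1
  apply Prod.ext
  · simp only [map_add]
    ring
  · rfl

theorem Inv.yy {ψ : Pt → ℂ} (hψ : ContDiffOn ℝ 1 ψ SD) (hi : Inv ψ) : Inv (YY ψ) := by
  intro a b hab p hp
  unfold YY
  rw [← fderiv_inv hψ hi hab hp (-(Complex.I * conj p.2), Complex.I), actT]
  congr 1
  apply Prod.ext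
  · simp only [map_add]
    ring
  · rfl

theorem Inv.zz {ψ : Pt → ℂ} (hψ : ContDiffOn ℝ 1 ψ SD) (hi : Inv ψ) : Inv (ZZ ψ) := by
  intro a b hab p hp
  unfold ZZ pd
  rw [← fderiv_inv hψ hi hab hp (Complex.I, 0)]
  congr 1
  apply Prod.ext
  · simp
  · rfl

/-! ### Smoothness -/

theorem contDiff_fieldX : ContDiff ℝ 1 (fun p : Pt => ((-conj p.2, 1) : Pt)) := by
  apply ContDiff.prodMk _ contDiff_const
  exact ((Complex.conjCLE : ℂ →L[ℝ] ℂ).contDiff.comp contDiff_snd).neg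

theorem contDiff_fieldY : ContDiff ℝ 1 (fun p : Pt => ((-(Complex.I * conj p.2), Complex.I) : Pt)) := by
  apply ContDiff.prodMk _ contDiff_const
  exact (contDiff_const.mul ((Complex.conjCLE : ℂ →L[ℝ] ℂ).contDiff.comp contDiff_snd)).neg

theorem c1_xx {φ : Pt → ℂ} (hφ : ContDiffOn ℝ 2 φ SD) : ContDiffOn ℝ 1 (XX φ) SD :=
  (hφ.fderiv_of_isOpen isOpen_SD (by norm_num)).clm_apply contDiff_fieldX.contDiffOn

theorem c1_yy {φ : Pt → ℂ} (hφ : ContDiffOn ℝ 2 φ SD) : ContDiffOn ℝ 1 (YY φ) SD :=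
  (hφ.fderiv_of_isOpen isOpen_SD (by norm_num)).clm_apply contDiff_fieldY.contDiffOn

theorem c0_xx {φ : Pt → ℂ} (hφ : ContDiffOn ℝ 1 φ SD) : ContinuousOn (XX φ) SD :=
  (hφ.continuousOn_fderiv_of_isOpen isOpen_SD le_rfl).clm_apply contDiff_fieldX.continuous.continuousOn

theorem c0_yy {φ : Pt → ℂ} (hφ : ContDiffOn ℝ 1 φ SD) : ContinuousOn (YY φ) SD :=
  (hφ.continuousOn_fderiv_of_isOpen isOpen_SD le_rfl).clm_apply contDiff_fieldY.continuous.continuousOn

theorem c0_zz {φ : Pt → ℂ} (hφ : ContDiffOn ℝ 1 φ SD) : ContinuousOn (ZZ φ) SD :=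
  (hφ.continuousOn_fderiv_of_isOpen isOpen_SD le_rfl).clm_apply continuousOn_const

/-- the commutator of the horizontal fields -/
theorem commutator {φ : Pt → ℂ} (hφ : ContDiffOn ℝ 2 φ SD) {p : Pt} (hp : p ∈ SD) :
    XX (YY φ) p - YY (XX φ) p = -2 * ZZ φ p := by
  have hnh := isOpen_SD.mem_nhds hp
  have h1 : ContDiffAt ℝ 2 φ p := hφ.contDiffAt hnh
  have h2 : HasFDerivAt (fderiv ℝ φ) (fderiv ℝ (fderiv ℝ φ) p) p := by
    have h3 : ContDiffAt ℝ 1 (fderiv ℝ φ) p := h1.fderiv_right (by norm_num)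
    exact (h3.differentiableAt (by norm_num)).hasFDerivAt
  have hsym : ∀ v w : Pt, fderiv ℝ (fderiv ℝ φ) p v w = fderiv ℝ (fderiv ℝ φ) p w v := by
    intro v w
    exact (h1.isSymmSndFDerivAt (by simp)) v w
  have hconj : HasFDerivAt (fun q : Pt => conj q.2)
      ((Complex.conjCLE : ℂ →L[ℝ] ℂ).comp (ContinuousLinearMap.snd ℝ ℂ ℂ)) p :=
    (Complex.conjCLE : ℂ →L[ℝ] ℂ).hasFDerivAt.comp p hasFDerivAt_snd
  have hX : HasFDerivAt (fun q : Pt => ((-conj q.2, 1) : Pt))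
      ((-((Complex.conjCLE : ℂ →L[ℝ] ℂ).comp (ContinuousLinearMap.snd ℝ ℂ ℂ))).prod 0) p :=
    hconj.neg.prodMk (hasFDerivAt_const _ _)
  have hY : HasFDerivAt (fun q : Pt => ((-(Complex.I * conj q.2), Complex.I) : Pt))
      ((-(Complex.I • ((Complex.conjCLE : ℂ →L[ℝ] ℂ).comp
        (ContinuousLinearMap.snd ℝ ℂ ℂ)))).prod 0) p :=
    (hconj.const_mul Complex.I).neg.prodMk (hasFDerivAt_const _ _)
  have e1 : XX (YY φ) p = fderiv ℝ (fderiv ℝ φ) p (-conj p.2, 1)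
      (-(Complex.I * conj p.2), Complex.I) + fderiv ℝ φ p (-Complex.I, 0) := by
    have h4 : fderiv ℝ (YY φ) p = _ := (h2.clm_apply hY).fderiv
    unfold XX
    rw [h4]
    simp
    rw [add_comm]
  have e2 : YY (XX φ) p = fderiv ℝ (fderiv ℝ φ) p (-(Complex.I * conj p.2), Complex.I)
      (-conj p.2, 1) + fderiv ℝ φ p (Complex.I, 0) := by
    have h4 : fderiv ℝ (XX φ) p = _ := (h2.clm_apply hX).fderiv
    unfold YY
    rw [h4]
    simp
    rw [add_comm]
  have e3 : fderiv ℝ φ p (-Complex.I, 0) = -fderiv ℝ φ p (Complex.I, 0) := by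
    rw [← map_neg]
    congr 1
    apply Prod.ext
    · rfl
    · simp
  rw [e1, e2, e3, hsym (-conj p.2, 1) (-(Complex.I * conj p.2), Complex.I)]
  unfold ZZ pd
  ring

end

end Pool.Agent.Helper99.Pic
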